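import Pool.Agent.N438.LA_ISLF_OF_REACH

set_option autoImplicit false

/-!
# Project LA: linear forests from a state with unit weights
-/

namespace Pool.Agent.N438.LAFINAL

open Finset Pool.Agent.N347.LA
open Pool.Agent.N438.LAISLF_OF_REACH (isLF_of_reach)

theorem final {V B W : Type} [Fintype B] [Finite W] (R : V → V → Prop) (hR : ∀ u v, R u v → R v u)
    (k : ℕ) (q : B → V) (f : W → V) (G : SimpleGraph W)
    (hG : ∀ x y, G.Adj x y ↔ x ≠ y ∧ R (f x) (f y))
    (hf : ∀ v, {x | f x = v}.ncard = {b | q b = v}.ncard)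
    (h : HasState R k q (fun _ => 1)) : H931R3.LA.Cov G k := by
  classical
  obtain ⟨m, z, hs⟩ := h
  -- the colour classes on `B`
  let F : Fin k → SimpleGraph B := fun c =>
    { Adj := fun b b' => b ≠ b' ∧ 0 < m c b b'
      symm := ⟨fun b b' hb => ⟨hb.1.symm, by rw [hs.symm]; exact hb.2⟩⟩
      loopless := ⟨fun b hb => hb.1 rfl⟩ }
  have hFadj : ∀ c b b', (F c).Adj b b' ↔ b ≠ b' ∧ 0 < m c b b' := fun c b b' => Iff.rfl
  have hLF : ∀ c, H931R3.LA.IsLF (F c) := by
    intro c
    refine isLF_of_reach (F c) (z c) (fun b => ?_) (fun b => ?_)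
    · have h1 : ((F c).neighborSet b).ncard ≤ ∑ b', m c b b' := by
        have e : (F c).neighborSet b = ((univ.filter fun b' => b ≠ b' ∧ 0 < m c b b' : Finset B) :
            Set B) := by
          ext b'
          simp [SimpleGraph.mem_neighborSet, hFadj]
        rw [e, Set.ncard_coe_finset, Finset.card_eq_sum_ones]
        calc ∑ b' ∈ univ.filter (fun b' => b ≠ b' ∧ 0 < m c b b'), 1 ≤
            ∑ b' ∈ univ.filter (fun b' => b ≠ b' ∧ 0 < m c b b'), m c b b' :=
              Finset.sum_le_sum fun b' hb' => (Finset.mem_filter.1 hb').2.2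
          _ ≤ ∑ b', m c b b' := Finset.sum_le_sum_of_subset (Finset.filter_subset _ _)
      have h2 := hs.deg c b
      omega
    · obtain ⟨y, hy, hz⟩ := hs.conn c b
      refine ⟨y, ?_, hz⟩
      clear hz
      induction hy with
      | refl => exact SimpleGraph.Reachable.refl _
      | @tail u v _ huv ih =>
        by_cases e : u = v
        · exact e ▸ ih
        · exact ih.trans (SimpleGraph.Adj.reachable ((hFadj c u v).2 ⟨e, huv⟩))
  have hcov : ∀ b b', (∃ c, (F c).Adj b b') ↔ b ≠ b' ∧ R (q b) (q b') := by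
    intro b b'
    constructor
    · rintro ⟨c, hne, hpos⟩
      refine ⟨hne, ?_⟩
      by_contra hcon
      rw [hs.nadj c b b' hcon] at hpos
      exact lt_irrefl _ hpos
    · rintro ⟨hne, hr⟩
      have h1 := hs.adj b b' hne hr
      by_contra hcon
      push Not at hcon
      have h2 : ∑ c, m c b b' = 0 := Finset.sum_eq_zero fun c _ => by
        by_contra h3
        exact hcon c ⟨hne, Nat.pos_of_ne_zero h3⟩
      omega
  -- the equivalence
  have hg : ∀ v, Nonempty ({x // f x = v} ≃ {b // q b = v}) := by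
    intro v
    have := hf v
    rw [← Nat.card_coe_set_eq, ← Nat.card_coe_set_eq] at this
    exact Finite.card_eq.1 this
  let g : ∀ v, {x // f x = v} ≃ {b // q b = v} := fun v => (hg v).some
  let e : W ≃ B := (Equiv.sigmaFiberEquiv f).symm.trans
    ((Equiv.sigmaCongrRight g).trans (Equiv.sigmaFiberEquiv q))
  have he : ∀ x, q (e x) = f x := fun x => (g (f x) ⟨x, rfl⟩).2
  refine ⟨fun c => (F c).comap e, fun c => ⟨?_, fun x => ?_⟩, ?_⟩
  · exact (hLF c).1.comap ⟨e, fun {a b} hab => hab⟩ e.injective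
  · refine le_trans (le_of_eq ?_) ((hLF c).2 (e x))
    rw [← Set.ncard_image_of_injective _ e.injective]
    congr 1
    ext b
    constructor
    · rintro ⟨y, hy, rfl⟩
      exact hy
    · intro hb
      refine ⟨e.symm b, ?_, e.apply_symm_apply b⟩
      show (F c).Adj (e x) (e (e.symm b))
      rw [e.apply_symm_apply]
      exact hb
  · ext x y
    rw [SimpleGraph.iSup_adj, hG, ← he x, ← he y]
    have h1 := hcov (e x) (e y)
    rw [e.injective.ne_iff] at h1
    exact h1

end Pool.Agent.N438.LAFINAL
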