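import Mathlib
import Pool.Agent.N604.MW.Stm

/-!
# The first moment of the number of pairs
-/

set_option autoImplicit false

namespace Pool.Agent.N438.MW

open Finset MeasureTheory
open Pool.Agent.N604.MW

/-- Dyadic decomposition of a sum. -/
theorem dyadic {α : Type} (S : Finset α) (f : α → ℝ) (K T : ℝ) (hf : ∀ m ∈ S, 0 ≤ f m)
    (hK : 0 ≤ K) (hT1 : 1 ≤ T) (hT : ∀ m ∈ S, 1 + f m ≤ T)
    (hc : ∀ (t : ℝ), 1 ≤ t → ∀ R : Finset α, R ⊆ S → (∀ m ∈ R, f m ≤ t) → (R.card : ℝ) ≤ K * t) :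
    ∑ m ∈ S, 1 / (1 + f m) ≤ 2 * K * (1 + Real.log T / Real.log 2) := by
  classical
  obtain ⟨L, hL⟩ : ∃ L, L = Nat.log 2 ⌊T⌋₊ := ⟨_, rfl⟩
  obtain ⟨μ, hμ⟩ : ∃ μ : α → ℕ, μ = fun m => Nat.log 2 ⌊1 + f m⌋₊ := ⟨_, rfl⟩
  have hfl : ∀ m ∈ S, ⌊1 + f m⌋₊ ≠ 0 := by
    intro m hm h0
    have h1 := Nat.floor_eq_zero.1 h0
    linarith [hf m hm]
  have h1 : ∀ m ∈ S, 1 / (1 + f m) ≤ (1 / 2 : ℝ) ^ (μ m) := by
    intro m hm
    have h2 : (2 : ℝ) ^ (μ m) ≤ 1 + f m := by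
      have h3 : 2 ^ (μ m) ≤ ⌊1 + f m⌋₊ := by
        rw [hμ]
        exact Nat.pow_log_le_self 2 (hfl m hm)
      have h4 := (Nat.le_floor_iff (by linarith [hf m hm])).1 h3
      exact_mod_cast h4
    rw [one_div_pow]
    exact one_div_le_one_div_of_le (by positivity) h2
  have h2 : ∀ m ∈ S, μ m ∈ range (L + 1) := by
    intro m hm
    rw [mem_range, Nat.lt_succ_iff, hL, hμ]
    exact Nat.log_mono_right (Nat.floor_le_floor (hT m hm))
  have h3 : ∀ ν ∈ range (L + 1), ∑ m ∈ S with μ m = ν, (1 / 2 : ℝ) ^ (μ m) ≤ 2 * K := by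
    intro ν _
    have h4 : ∑ m ∈ S with μ m = ν, (1 / 2 : ℝ) ^ (μ m) =
        ((S.filter fun m => μ m = ν).card : ℝ) * (1 / 2) ^ ν := by
      rw [← nsmul_eq_mul, ← sum_const]
      exact sum_congr rfl fun m hm => by rw [(mem_filter.1 hm).2]
    have h5 : ((S.filter fun m => μ m = ν).card : ℝ) ≤ K * 2 ^ (ν + 1) := by
      refine hc _ (one_le_pow₀ one_le_two) _ (filter_subset _ _) fun m hm => ?_
      obtain ⟨hm1, hm2⟩ := mem_filter.1 hm
      have h6 : ⌊1 + f m⌋₊ < 2 ^ (ν + 1) := by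
        rw [← hm2, hμ]
        exact Nat.lt_pow_succ_log_self one_lt_two _
      have h7 := (Nat.floor_lt (by linarith [hf m hm1])).1 h6
      push_cast at h7
      linarith
    rw [h4]
    calc ((S.filter fun m => μ m = ν).card : ℝ) * (1 / 2) ^ ν ≤ K * 2 ^ (ν + 1) * (1 / 2) ^ ν := by
          gcongr
      _ = 2 * K := by
          rw [pow_succ, one_div_pow]
          field_simp
  have h4 : (L : ℝ) ≤ Real.log T / Real.log 2 := by
    rw [le_div_iff₀ (Real.log_pos one_lt_two), ← Real.log_pow]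
    refine Real.log_le_log (by positivity) ?_
    have h5 : 2 ^ L ≤ ⌊T⌋₊ := by
      rw [hL]
      refine Nat.pow_log_le_self 2 fun h0 => ?_
      have h1 := Nat.floor_eq_zero.1 h0
      linarith
    have h6 := (Nat.le_floor_iff (by linarith)).1 h5
    exact_mod_cast h6
  calc ∑ m ∈ S, 1 / (1 + f m) ≤ ∑ m ∈ S, (1 / 2 : ℝ) ^ (μ m) := sum_le_sum h1
    _ = ∑ ν ∈ range (L + 1), ∑ m ∈ S with μ m = ν, (1 / 2 : ℝ) ^ (μ m) :=
        (sum_fiberwise_of_maps_to h2 _).symm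
    _ ≤ ∑ ν ∈ range (L + 1), 2 * K := sum_le_sum h3
    _ = 2 * K * (1 + L) := by
        rw [sum_const, card_range, nsmul_eq_mul]
        push_cast
        ring
    _ ≤ 2 * K * (1 + Real.log T / Real.log 2) := by gcongr

/-- the differences of the power sums -/
noncomputable def D {k : ℕ} (n m : Fin k → ℕ) (j : ℕ) : ℝ := ∑ i, ((m i : ℝ) ^ j - (n i : ℝ) ^ j)

/-- the sum of the absolute values of the differences of the power sums -/
noncomputable def Ss {k : ℕ} (n m : Fin k → ℕ) : ℝ := ∑ j ∈ Finset.Icc 1 k, |D n m j|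

theorem D_int {k : ℕ} (n m : Fin k → ℕ) (j : ℕ) (h : D n m j ≠ 0) : 1 ≤ |D n m j| := by
  have h1 : D n m j = ((∑ i, ((m i : ℤ) ^ j - (n i : ℤ) ^ j) : ℤ) : ℝ) := by
    unfold D
    push_cast
    rfl
  rw [h1] at h ⊢
  have h2 : (∑ i, ((m i : ℤ) ^ j - (n i : ℤ) ^ j) : ℤ) ≠ 0 := by exact_mod_cast h
  exact_mod_cast Int.one_le_abs h2

theorem Ss_nonneg {k : ℕ} (n m : Fin k → ℕ) : 0 ≤ Ss n m :=
  sum_nonneg fun _ _ => abs_nonneg _

theorem D_le_Ss {k : ℕ} (n m : Fin k → ℕ) {j : ℕ} (hj : j ∈ Finset.Icc 1 k) :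
    |D n m j| ≤ Ss n m :=
  single_le_sum (f := fun j => |D n m j|) (fun _ _ => abs_nonneg _) hj

theorem sum_PP (d : ℕ) (c : ℝ) (θ : Fin d → ℝ) (n m : Fin (d + 1) → ℕ) :
    ∑ i, (PP d c 0 θ (n i) - PP d c 0 θ (m i)) =
      -(c * D n m (d + 1) + ∑ j : Fin d, θ j * D n m ((j : ℕ) + 1)) := by
  have h1 : ∀ i, PP d c 0 θ (n i) - PP d c 0 θ (m i) =
      -(c * ((m i : ℝ) ^ (d + 1) - (n i : ℝ) ^ (d + 1)) +
        ∑ j : Fin d, θ j * ((m i : ℝ) ^ ((j : ℕ) + 1) - (n i : ℝ) ^ ((j : ℕ) + 1))) := by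
    intro i
    unfold PP
    have h2 : ∑ j : Fin d, θ j * ((m i : ℝ) ^ ((j : ℕ) + 1) - (n i : ℝ) ^ ((j : ℕ) + 1)) =
        ∑ j : Fin d, θ j * (m i : ℝ) ^ ((j : ℕ) + 1) -
        ∑ j : Fin d, θ j * (n i : ℝ) ^ ((j : ℕ) + 1) := by
      rw [← sum_sub_distrib]
      exact sum_congr rfl fun j _ => by ring
    rw [h2]
    ring
  rw [sum_congr rfl fun i _ => h1 i, sum_neg_distrib, sum_add_distrib, ← mul_sum, sum_comm]
  unfold D
  congr 2
  refine sum_congr rfl fun j _ => ?_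
  rw [mul_sum]

theorem Ss_le (d : ℕ) (n m : Fin (d + 1) → ℕ) (H : ℝ)
    (h : ∀ j : Fin d, |D n m ((j : ℕ) + 1)| ≤ H) : Ss n m ≤ d * H + |D n m (d + 1)| := by
  unfold Ss
  rw [Finset.sum_Icc_succ_top (by omega)]
  have h1 : ∑ j ∈ Finset.Icc 1 d, |D n m j| ≤ (Finset.Icc 1 d).card • H := by
    refine sum_le_card_nsmul _ _ _ fun j hj => ?_
    rw [Finset.mem_Icc] at hj
    have h2 := h ⟨j - 1, by omega⟩
    simp only [Nat.sub_add_cancel hj.1] at h2
    exact h2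
  rw [Nat.card_Icc, nsmul_eq_mul, Nat.add_sub_cancel] at h1
  linarith

/-- The volume of the set of polynomials for which a given pair counts. -/
theorem vol_le (h2 : S_SLAB) (d : ℕ) (c B : ℝ) (hd : 1 ≤ d) (hc : 0 < c) (hB : 0 < B) :
    ∃ C1 : ℝ, 0 < C1 ∧ ∀ n m : Fin (d + 1) → ℕ,
      volume {θ : Fin d → ℝ | (∀ j, |θ j| ≤ B) ∧
        |∑ i, (PP d c 0 θ (n i) - PP d c 0 θ (m i))| ≤ (d : ℝ) + 1} ≤
      ENNReal.ofReal (C1 / (1 + Ss n m)) := by
  obtain ⟨C, hC, hs⟩ := h2 d B hB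
  obtain ⟨C2, hC2⟩ : ∃ C2 : ℝ, C2 = d + (d + 1 + d * B) / c := ⟨_, rfl⟩
  have hC2p : 0 ≤ C2 := by
    rw [hC2]
    positivity
  refine ⟨(2 * B) ^ d * (1 + (d + 1) / c) + C * (d + 1) * (1 + C2), by positivity, fun n m => ?_⟩
  by_cases hne : {θ : Fin d → ℝ | (∀ j, |θ j| ≤ B) ∧
        |∑ i, (PP d c 0 θ (n i) - PP d c 0 θ (m i))| ≤ (d : ℝ) + 1}.Nonempty
  swap
  · rw [Set.not_nonempty_iff_eq_empty.1 hne, measure_empty]
    exact zero_le
  obtain ⟨θ0, hθ0, hθ1⟩ := hne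
  rw [sum_PP, abs_neg] at hθ1
  have hS0 := Ss_nonneg n m
  by_cases h0 : ∀ j : Fin d, D n m ((j : ℕ) + 1) = 0
  · have h3 : ∑ j : Fin d, θ0 j * D n m ((j : ℕ) + 1) = 0 :=
      sum_eq_zero fun j _ => by rw [h0 j, mul_zero]
    rw [h3, add_zero, abs_mul, abs_of_pos hc] at hθ1
    have h4 : |D n m (d + 1)| ≤ (d + 1) / c := by
      rw [le_div_iff₀ hc]
      linarith
    have h5 := Ss_le d n m 0 fun j => by rw [h0 j, abs_zero]
    have h6 : 1 + Ss n m ≤ 1 + (d + 1) / c := by linarith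
    have h7 : volume {θ : Fin d → ℝ | (∀ j, |θ j| ≤ B) ∧
        |∑ i, (PP d c 0 θ (n i) - PP d c 0 θ (m i))| ≤ (d : ℝ) + 1} ≤
        volume (Metric.closedBall (0 : Fin d → ℝ) B) := by
      refine measure_mono fun θ hθ => ?_
      rw [mem_closedBall_zero_iff, pi_norm_le_iff_of_nonneg hB.le]
      exact hθ.1
    refine h7.trans ?_
    rw [Real.volume_pi_closedBall _ hB.le, Fintype.card_fin]
    refine ENNReal.ofReal_le_ofReal ?_
    rw [le_div_iff₀ (by linarith)]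
    have h8 : 0 ≤ C * (d + 1) * (1 + C2) := by positivity
    calc (2 * B) ^ d * (1 + Ss n m) ≤ (2 * B) ^ d * (1 + (d + 1) / c) := by gcongr
      _ ≤ _ := by linarith
  · push Not at h0
    obtain ⟨j1, hj1⟩ := h0
    have : Nonempty (Fin d) := ⟨j1⟩
    obtain ⟨j0, hj0⟩ := Finite.exists_max fun j : Fin d => |D n m ((j : ℕ) + 1)|
    obtain ⟨H, hH⟩ : ∃ H : ℝ, H = |D n m ((j0 : ℕ) + 1)| := ⟨_, rfl⟩
    rw [← hH] at hj0
    have hH1 : 1 ≤ H := (D_int n m _ hj1).trans (hj0 j1)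
    have hsl := hs (fun j => D n m ((j : ℕ) + 1)) (c * D n m (d + 1)) (d + 1) H (by positivity)
      (by linarith) ⟨j0, hH.le⟩
    refine (measure_mono ?_).trans (hsl.trans (ENNReal.ofReal_le_ofReal ?_))
    · intro θ hθ
      refine ⟨hθ.1, ?_⟩
      have h3 := hθ.2
      rw [sum_PP, abs_neg, add_comm] at h3
      exact h3
    · have h3 : |∑ j : Fin d, θ0 j * D n m ((j : ℕ) + 1)| ≤ d * (B * H) := by
        refine (abs_sum_le_sum_abs _ _).trans ?_
        have h4 : ∑ j : Fin d, |θ0 j * D n m ((j : ℕ) + 1)| ≤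
            (Finset.univ : Finset (Fin d)).card • (B * H) := by
          refine sum_le_card_nsmul _ _ _ fun j _ => ?_
          rw [abs_mul]
          exact mul_le_mul (hθ0 j) (hj0 j) (abs_nonneg _) hB.le
        rwa [card_univ, Fintype.card_fin, nsmul_eq_mul] at h4
      have h4 : c * |D n m (d + 1)| ≤ (d + 1 + d * B) * H := by
        have h5 : |c * D n m (d + 1)| ≤ |c * D n m (d + 1) +
            ∑ j : Fin d, θ0 j * D n m ((j : ℕ) + 1)| +
            |∑ j : Fin d, θ0 j * D n m ((j : ℕ) + 1)| := by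
          have h6 := abs_sub (c * D n m (d + 1) + ∑ j : Fin d, θ0 j * D n m ((j : ℕ) + 1))
            (∑ j : Fin d, θ0 j * D n m ((j : ℕ) + 1))
          rwa [add_sub_cancel_right] at h6
        rw [abs_mul, abs_of_pos hc] at h5
        have h6 : (d : ℝ) + 1 ≤ (d + 1) * H := le_mul_of_one_le_right (by positivity) hH1
        nlinarith
      have h5 : |D n m (d + 1)| ≤ (d + 1 + d * B) / c * H := by
        rw [div_mul_eq_mul_div, le_div_iff₀ hc]
        linarith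
      have h6 := Ss_le d n m H hj0
      have h7 : 1 + Ss n m ≤ (1 + C2) * H := by
        rw [hC2]
        linarith
      rw [div_le_div_iff₀ (by linarith) (by linarith)]
      have h8 : 0 ≤ (2 * B) ^ d * (1 + (d + 1) / c) * H := by positivity
      calc C * (d + 1) * (1 + Ss n m) ≤ C * (d + 1) * ((1 + C2) * H) := by gcongr
        _ ≤ ((2 * B) ^ d * (1 + (d + 1) / c) + C * (d + 1) * (1 + C2)) * H := by linarith

theorem box_le {k X : ℕ} {n : Fin k → ℕ} (hn : n ∈ Box k X) (i : Fin k) :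
    (n i : ℝ) ≤ (2 * k + 1) * X := by
  have h1 := Fintype.mem_piFinset.1 hn i
  rw [Finset.mem_Icc] at h1
  have h2 : n i ≤ (2 * k + 1) * X := by
    refine h1.2.trans (Nat.mul_le_mul_right _ ?_)
    have := i.2
    omega
  exact_mod_cast h2

theorem box_card (k X : ℕ) : (Box k X).card = (X + 1) ^ k := by
  unfold Box
  rw [Fintype.card_piFinset, prod_congr rfl (g := fun _ => X + 1), prod_const, card_univ,
    Fintype.card_fin]
  intro i _
  rw [Nat.card_Icc]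
  have h1 : (2 * ((i : ℕ) + 1) + 1) * X = 2 * ((i : ℕ) + 1) * X + X := by ring
  rw [h1]
  omega

/-- The first moment of the number of pairs. -/
theorem sum (h1 : S_COUNT) (h2 : S_SLAB) : S_SUM := by
  intro d c B hd hc hB
  obtain ⟨C1, hC1, hv⟩ := vol_le h2 d c B hd hc hB
  obtain ⟨C4, hC4, hcount⟩ := h1 (d + 1) (by omega)
  obtain ⟨C6, hC6⟩ : ∃ C6 : ℝ, C6 = 1 + (d + 1) ^ 2 * (2 * (d + 1) + 1) ^ (d + 1) := ⟨_, rfl⟩
  have hC6p : 1 ≤ C6 := by
    rw [hC6]
    have : (0 : ℝ) ≤ (d + 1) ^ 2 * (2 * (d + 1) + 1) ^ (d + 1) := by positivity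
    linarith
  have hl2 : 0 < Real.log 2 := Real.log_pos one_lt_two
  have hl6 : 0 ≤ Real.log C6 := Real.log_nonneg hC6p
  obtain ⟨C7, hC7⟩ : ∃ C7 : ℝ, C7 = 1 + (Real.log C6 + (d + 1)) / Real.log 2 := ⟨_, rfl⟩
  have hC7p : 0 < C7 := by
    rw [hC7]
    positivity
  refine ⟨2 ^ (d + 1) * (C1 * (2 * C4 * C7)), by positivity, fun X hX => ?_⟩
  have hX1 : (1 : ℝ) ≤ X := by exact_mod_cast hX
  have hlX : 0 ≤ Real.log X := Real.log_nonneg hX1
  have hSs : ∀ n ∈ Box (d + 1) X, ∀ m ∈ Box (d + 1) X, 1 + Ss n m ≤ C6 * (X : ℝ) ^ (d + 1) := by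
    intro n hn m hm
    obtain ⟨Y, hY⟩ : ∃ Y : ℝ, Y = (2 * (d + 1) + 1) * X := ⟨_, rfl⟩
    have hY1 : 1 ≤ Y := by
      rw [hY]
      have : (1 : ℝ) ≤ 2 * (d + 1) + 1 := by
        have : (0 : ℝ) ≤ d := by positivity
        linarith
      exact one_le_mul_of_one_le_of_one_le this hX1
    have hb : ∀ l ∈ Box (d + 1) X, ∀ i, ∀ j ∈ Finset.Icc 1 (d + 1),
        (l i : ℝ) ^ j ≤ Y ^ (d + 1) := by
      intro l hl i j hj
      have h3 := box_le hl i
      push_cast at h3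
      rw [← hY] at h3
      exact (pow_le_pow_left₀ (by positivity) h3 j).trans
        (pow_le_pow_right₀ hY1 (Finset.mem_Icc.1 hj).2)
    have hD : ∀ j ∈ Finset.Icc 1 (d + 1), |D n m j| ≤ (d + 1) * Y ^ (d + 1) := by
      intro j hj
      refine (abs_sum_le_sum_abs _ _).trans ?_
      have h4 : ∑ i, |(m i : ℝ) ^ j - (n i : ℝ) ^ j| ≤
          (Finset.univ : Finset (Fin (d + 1))).card • Y ^ (d + 1) := by
        refine sum_le_card_nsmul _ _ _ fun i _ => ?_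
        rw [abs_le]
        have h5 := hb n hn i j hj
        have h6 := hb m hm i j hj
        have h7 : (0 : ℝ) ≤ (n i : ℝ) ^ j := by positivity
        have h8 : (0 : ℝ) ≤ (m i : ℝ) ^ j := by positivity
        constructor <;> linarith
      rw [card_univ, Fintype.card_fin, nsmul_eq_mul] at h4
      push_cast at h4
      exact h4
    have hS : Ss n m ≤ (d + 1) * ((d + 1) * Y ^ (d + 1)) := by
      have h4 := sum_le_card_nsmul _ _ _ hD
      rw [Nat.card_Icc, nsmul_eq_mul, Nat.add_sub_cancel] at h4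
      push_cast at h4
      exact h4
    have hXp : (1 : ℝ) ≤ (X : ℝ) ^ (d + 1) := one_le_pow₀ hX1
    rw [hC6]
    calc 1 + Ss n m ≤ (X : ℝ) ^ (d + 1) + (d + 1) * ((d + 1) * Y ^ (d + 1)) := by linarith
      _ = _ := by
        rw [hY, mul_pow]
        ring
  have hin : ∀ n ∈ Box (d + 1) X, ∑ m ∈ Box (d + 1) X, 1 / (1 + Ss n m) ≤
      2 * C4 * (C7 * (1 + Real.log X)) := by
    intro n hn
    have hT1 : 1 ≤ C6 * (X : ℝ) ^ (d + 1) :=
      one_le_mul_of_one_le_of_one_le hC6p (one_le_pow₀ hX1)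
    refine (dyadic (Box (d + 1) X) (Ss n) C4 (C6 * (X : ℝ) ^ (d + 1))
      (fun m _ => Ss_nonneg n m) hC4.le hT1 (hSs n hn) ?_).trans ?_
    · intro t ht R hR hR2
      exact hcount X t n hX ht hn R fun m hm =>
        ⟨hR hm, fun j hj => (D_le_Ss n m hj).trans (hR2 m hm)⟩
    · refine mul_le_mul_of_nonneg_left ?_ (by positivity)
      rw [Real.log_mul (by linarith) (by positivity), Real.log_pow, hC7]
      push_cast
      have h3 : (Real.log C6 + (d + 1) * Real.log X) / Real.log 2 ≤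
          (Real.log C6 + (d + 1)) / Real.log 2 * (1 + Real.log X) := by
        rw [div_mul_eq_mul_div]
        refine div_le_div_of_nonneg_right ?_ hl2.le
        have : 0 ≤ Real.log C6 * Real.log X := by positivity
        have : (0 : ℝ) ≤ d := by positivity
        linarith
      linarith
  rw [sum_product]
  calc ∑ n ∈ Box (d + 1) X, ∑ m ∈ Box (d + 1) X, volume {θ : Fin d → ℝ | (∀ j, |θ j| ≤ B) ∧
          |∑ i, (PP d c 0 θ ((n, m).1 i) - PP d c 0 θ ((n, m).2 i))| ≤ (d : ℝ) + 1} ≤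
        ∑ n ∈ Box (d + 1) X, ∑ m ∈ Box (d + 1) X, ENNReal.ofReal (C1 / (1 + Ss n m)) :=
        sum_le_sum fun n _ => sum_le_sum fun m _ => hv n m
    _ = ENNReal.ofReal (∑ n ∈ Box (d + 1) X, ∑ m ∈ Box (d + 1) X, C1 / (1 + Ss n m)) := by
        rw [ENNReal.ofReal_sum_of_nonneg]
        · refine sum_congr rfl fun n _ => ?_
          rw [ENNReal.ofReal_sum_of_nonneg]
          intro m _
          have := Ss_nonneg n m
          positivity
        · intro n _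
          refine sum_nonneg fun m _ => ?_
          have := Ss_nonneg n m
          positivity
    _ ≤ _ := by
        refine ENNReal.ofReal_le_ofReal ?_
        have h3 : ∀ n ∈ Box (d + 1) X, ∑ m ∈ Box (d + 1) X, C1 / (1 + Ss n m) ≤
            C1 * (2 * C4 * (C7 * (1 + Real.log X))) := by
          intro n hn
          have h4 : ∑ m ∈ Box (d + 1) X, C1 / (1 + Ss n m) =
              C1 * ∑ m ∈ Box (d + 1) X, 1 / (1 + Ss n m) := by
            rw [mul_sum]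
            exact sum_congr rfl fun m _ => by rw [mul_one_div]
          rw [h4]
          exact mul_le_mul_of_nonneg_left (hin n hn) hC1.le
        have h4 := sum_le_card_nsmul _ _ _ h3
        rw [box_card, nsmul_eq_mul] at h4
        push_cast at h4
        refine h4.trans ?_
        have h5 : ((X : ℝ) + 1) ^ (d + 1) ≤ 2 ^ (d + 1) * (X : ℝ) ^ (d + 1) := by
          rw [← mul_pow]
          exact pow_le_pow_left₀ (by positivity) (by linarith) _
        calc ((X : ℝ) + 1) ^ (d + 1) * (C1 * (2 * C4 * (C7 * (1 + Real.log X)))) ≤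
              2 ^ (d + 1) * (X : ℝ) ^ (d + 1) * (C1 * (2 * C4 * (C7 * (1 + Real.log X)))) := by
              gcongr
          _ = _ := by ring

end Pool.Agent.N438.MW
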