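import Pool.Agent.N205.WT.Stm

/-!
# Irreducibility modulo three, by brute force
-/

set_option autoImplicit false

open Polynomial
open Pool.Agent.N205.WT

namespace Pool.Agent.N438.WT9

/-- the polynomial with the given coefficients, highest first -/
noncomputable def pl : List (ZMod 3) → (ZMod 3)[X]
  | [] => 0
  | c :: l => C c * X ^ l.length + pl l

theorem pl_range (f : ℕ → ZMod 3) (g : ℕ) :
    pl ((List.range (g + 1)).map fun i => f (g - i)) =
      ∑ j ∈ Finset.range (g + 1), C (f j) * X ^ j := by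
  induction g with
  | zero =>
    simp [pl]
  | succ g ih =>
    rw [List.range_succ_eq_map, List.map_cons, List.map_map, Finset.sum_range_succ]
    have h1 : ((fun i => f (g + 1 - i)) ∘ Nat.succ) = fun i => f (g - i) := by
      funext i
      simp [Function.comp]
    rw [h1]
    unfold pl
    rw [ih, List.length_map, List.length_range, Nat.sub_zero, add_comm]

theorem hor1_spec (u : ZMod 3) (l : List (ZMod 3)) : ∀ x : ZMod 3, ∃ Q : (ZMod 3)[X],
    C x * X ^ l.length + pl l = (X - C u) * Q + C (hor1 u l x) := by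
  induction l with
  | nil =>
    intro x
    exact ⟨0, by simp [pl, hor1]⟩
  | cons c l ih =>
    intro x
    obtain ⟨Q, hQ⟩ := ih (c + x * u)
    refine ⟨Q + C x * X ^ l.length, ?_⟩
    unfold hor1 pl
    rw [List.length_cons, pow_succ]
    rw [C_add, C_mul] at hQ
    linear_combination hQ

theorem hor2_spec (u v : ZMod 3) (l : List (ZMod 3)) : ∀ x y : ZMod 3, ∃ Q : (ZMod 3)[X],
    (C x * X + C y) * X ^ l.length + pl l =
      (X ^ 2 + C u * X + C v) * Q + (C (hor2 u v l (x, y)).1 * X + C (hor2 u v l (x, y)).2) := by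
  induction l with
  | nil =>
    intro x y
    exact ⟨0, by simp [pl, hor2]⟩
  | cons c l ih =>
    intro x y
    obtain ⟨Q, hQ⟩ := ih (y - x * u) (c - x * v)
    refine ⟨Q + C x * X ^ l.length, ?_⟩
    unfold hor2 pl
    rw [List.length_cons, pow_succ]
    rw [C_sub, C_mul, C_sub, C_mul] at hQ
    linear_combination hQ

theorem hor3_spec (u v w : ZMod 3) (l : List (ZMod 3)) : ∀ x y z : ZMod 3, ∃ Q : (ZMod 3)[X],
    (C x * X ^ 2 + C y * X + C z) * X ^ l.length + pl l =
      (X ^ 3 + C u * X ^ 2 + C v * X + C w) * Q +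
        (C (hor3 u v w l (x, y, z)).1 * X ^ 2 + C (hor3 u v w l (x, y, z)).2.1 * X +
          C (hor3 u v w l (x, y, z)).2.2) := by
  induction l with
  | nil =>
    intro x y z
    exact ⟨0, by simp [pl, hor3]⟩
  | cons c l ih =>
    intro x y z
    obtain ⟨Q, hQ⟩ := ih (y - x * u) (z - x * v) (c - x * w)
    refine ⟨Q + C x * X ^ l.length, ?_⟩
    unfold hor3 pl
    rw [List.length_cons, pow_succ]
    rw [C_sub, C_mul, C_sub, C_mul, C_sub, C_mul] at hQ
    linear_combination hQ

theorem mod3 : S_MOD3 := by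
  intro g r hg hg7 hr hno
  obtain ⟨l, hl⟩ : ∃ l, l = (List.range (g + 1)).map fun i => ((r (g - i) : ℤ) : ZMod 3) :=
    ⟨_, rfl⟩
  rw [← hl] at hno
  obtain ⟨hn1, hn2, hn3⟩ := hno
  obtain ⟨R, hR⟩ : ∃ R : ℤ[X], R = ∑ j ∈ Finset.range (g + 1), C (r j) * X ^ j := ⟨_, rfl⟩
  rw [← hR]
  have hdeg : (∑ j ∈ Finset.range g, C (r j) * X ^ j : ℤ[X]).degree < g := by
    refine (Polynomial.degree_sum_le _ _).trans_lt ?_
    rw [Finset.sup_lt_iff (WithBot.bot_lt_coe _)]
    intro j hj
    refine (Polynomial.degree_C_mul_X_pow_le _ _).trans_lt ?_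
    exact_mod_cast Finset.mem_range.1 hj
  have hR' : R = X ^ g + ∑ j ∈ Finset.range g, C (r j) * X ^ j := by
    rw [hR, Finset.sum_range_succ, hr, C_1, one_mul, add_comm]
  have hmon : R.Monic := by
    rw [hR']
    exact monic_X_pow_add hdeg
  have hnd : R.natDegree = g := by
    rw [hR']
    refine natDegree_eq_of_degree_eq_some ?_
    rw [degree_add_eq_left_of_degree_lt (by rwa [degree_X_pow]), degree_X_pow]
  have hmap : R.map (Int.castRingHom (ZMod 3)) = pl l := by
    rw [hl, pl_range (fun i => ((r i : ℤ) : ZMod 3)), hR, Polynomial.map_sum]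
    refine Finset.sum_congr rfl fun j _ => ?_
    rw [Polynomial.map_mul, Polynomial.map_C, Polynomial.map_pow, Polynomial.map_X]
    rfl
  have hmon3 : (pl l).Monic := by
    rw [← hmap]
    exact hmon.map _
  have hnd3 : (pl l).natDegree = g := by
    rw [← hmap, hmon.natDegree_map, hnd]
  have hirr : Irreducible (pl l) := by
    rw [hmon3.irreducible_iff_lt_natDegree_lt (by
      intro h
      rw [h, natDegree_one] at hnd3
      omega)]
    intro q hq hqd hdvd
    rw [hnd3, Finset.mem_Ioc] at hqd
    have hsum := hq.as_sum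
    have hlen : q.natDegree = 1 ∨ q.natDegree = 2 ∨ q.natDegree = 3 := by omega
    rcases hlen with h | h | h
    · rw [h, Finset.sum_range_one, pow_one, pow_zero, mul_one] at hsum
      obtain ⟨Q, hQ⟩ := hor1_spec (-(q.coeff 0)) l 0
      rw [C_0, zero_mul, zero_add, C_neg, sub_neg_eq_add, ← hsum] at hQ
      have h1 : q ∣ C (hor1 (-(q.coeff 0)) l 0) := by
        rw [hQ] at hdvd
        exact (dvd_add_right (dvd_mul_right q Q)).1 hdvd
      have h2 := eq_zero_of_dvd_of_degree_lt h1 (by
        rw [degree_eq_natDegree hq.ne_zero, h]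
        exact degree_C_lt)
      exact hn1 _ (C_eq_zero.1 h2)
    · rw [h, Finset.sum_range_succ, Finset.sum_range_one, pow_one, pow_zero, mul_one] at hsum
      obtain ⟨Q, hQ⟩ := hor2_spec (q.coeff 1) (q.coeff 0) l 0 0
      have hsum' : q = X ^ 2 + C (q.coeff 1) * X + C (q.coeff 0) := by
        conv_lhs => rw [hsum]
        ring
      rw [C_0, zero_mul, zero_add, zero_mul, zero_add, ← hsum'] at hQ
      have h1 : q ∣ C (hor2 (q.coeff 1) (q.coeff 0) l (0, 0)).1 * X +
          C (hor2 (q.coeff 1) (q.coeff 0) l (0, 0)).2 := by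
        rw [hQ] at hdvd
        exact (dvd_add_right (dvd_mul_right q Q)).1 hdvd
      have h2 := eq_zero_of_dvd_of_degree_lt h1 (by
        rw [degree_eq_natDegree hq.ne_zero, h]
        exact degree_linear_lt)
      refine hn2 (by omega) (q.coeff 1) (q.coeff 0) (Prod.ext ?_ ?_)
      · have h3 := congrArg (fun p => Polynomial.coeff p 1) h2
        simpa using h3
      · have h3 := congrArg (fun p => Polynomial.coeff p 0) h2
        simpa using h3
    · rw [h, Finset.sum_range_succ, Finset.sum_range_succ, Finset.sum_range_one, pow_one, pow_zero,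
        mul_one] at hsum
      obtain ⟨Q, hQ⟩ := hor3_spec (q.coeff 2) (q.coeff 1) (q.coeff 0) l 0 0 0
      have hsum' : q = X ^ 3 + C (q.coeff 2) * X ^ 2 + C (q.coeff 1) * X + C (q.coeff 0) := by
        conv_lhs => rw [hsum]
        ring
      rw [C_0, zero_mul, zero_mul, zero_add, zero_add, zero_mul, zero_add, ← hsum'] at hQ
      have h1 : q ∣ C (hor3 (q.coeff 2) (q.coeff 1) (q.coeff 0) l (0, 0, 0)).1 * X ^ 2 +
          C (hor3 (q.coeff 2) (q.coeff 1) (q.coeff 0) l (0, 0, 0)).2.1 * X +
          C (hor3 (q.coeff 2) (q.coeff 1) (q.coeff 0) l (0, 0, 0)).2.2 := by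
        rw [hQ] at hdvd
        exact (dvd_add_right (dvd_mul_right q Q)).1 hdvd
      have h2 := eq_zero_of_dvd_of_degree_lt h1 (by
        rw [degree_eq_natDegree hq.ne_zero, h]
        exact degree_quadratic_lt)
      refine hn3 (by omega) (q.coeff 2) (q.coeff 1) (q.coeff 0)
        (Prod.ext ?_ (Prod.ext ?_ ?_))
      · have h3 := congrArg (fun p => Polynomial.coeff p 2) h2
        simpa [coeff_X, coeff_C] using h3
      · have h3 := congrArg (fun p => Polynomial.coeff p 1) h2
        simpa [coeff_X, coeff_C] using h3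
      · have h3 := congrArg (fun p => Polynomial.coeff p 0) h2
        simpa [coeff_X, coeff_C] using h3
  have hirrZ : Irreducible R := by
    refine hmon.irreducible_of_irreducible_map (Int.castRingHom (ZMod 3)) R ?_
    rw [hmap]
    exact hirr
  exact (IsPrimitive.Int.irreducible_iff_irreducible_map_cast hmon.isPrimitive).1 hirrZ

end Pool.Agent.N438.WT9
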