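import Pool.Agent.N404.LF.Stm2

/-!
# Elementary asymptotics
-/

set_option autoImplicit false

open Filter Topology

namespace Pool.Agent.N438.LFEV

theorem ev_neg (A a δ : ℝ) (ha : 0 < a) (hδ : 0 < δ) :
    ∀ᶠ N : ℕ in atTop, A * (N : ℝ) ^ (-a) ≤ δ := by
  have h1 : Tendsto (fun N : ℕ => A * (N : ℝ) ^ (-a)) atTop (𝓝 (A * 0)) :=
    ((tendsto_rpow_neg_atTop ha).comp tendsto_natCast_atTop_atTop).const_mul A
  rw [mul_zero] at h1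
  exact h1.eventually_le_const hδ

theorem ev_exp (K : ℕ) (c : ℝ) (hc : 0 < c) :
    ∀ᶠ N : ℕ in atTop, (6 : ℝ) ^ K * (((N : ℝ) ^ (1 / 5 : ℝ)) ^ (5 * K + 5) *
      Real.exp (-(c * (N : ℝ) ^ (1 / 5 : ℝ)))) ≤ 1 / 3 := by
  have h1 : Tendsto (fun x : ℝ => (6 : ℝ) ^ K * ((c ^ (5 * K + 5))⁻¹ *
      ((c * x) ^ (5 * K + 5) * Real.exp (-(c * x))))) atTop
      (𝓝 ((6 : ℝ) ^ K * ((c ^ (5 * K + 5))⁻¹ * 0))) := by
    refine Tendsto.const_mul _ (Tendsto.const_mul _ ?_)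
    exact (Real.tendsto_pow_mul_exp_neg_atTop_nhds_zero (5 * K + 5)).comp
      (tendsto_id.const_mul_atTop hc)
  rw [mul_zero, mul_zero] at h1
  have h2 : Tendsto (fun N : ℕ => (N : ℝ) ^ (1 / 5 : ℝ)) atTop atTop :=
    (tendsto_rpow_atTop (by norm_num)).comp tendsto_natCast_atTop_atTop
  have h3 := (h1.comp h2).eventually_le_const (show (0 : ℝ) < 1 / 3 by norm_num)
  refine h3.mono fun N hN => ?_
  refine le_trans (le_of_eq ?_) hN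
  simp only [Function.comp]
  rw [mul_pow]
  field_simp

theorem main : Pool.Agent.N404.LF.S_EV := by
  intro k C K c₀ C₁ C₃ c θ hk hc hθ0 hθ1
  have hL : 0 < -Real.log (1 - θ) := by
    have := Real.log_neg (show 0 < 1 - θ by linarith) (by linarith)
    linarith
  have hlk : 0 ≤ Real.log k := Real.log_natCast_nonneg k
  have e1 := ev_neg (C₁ * (2 + c₀)) (1 / 15) (1 / 3) (by norm_num) (by norm_num)
  have e2 := ev_exp K c hc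
  have e3 := ev_neg C₃ (1 / 15) (1 / 3) (by norm_num) (by norm_num)
  have e4 := ev_neg (10 * C + (4 + 2 * c₀) * Real.log k) (2 / 5) (-Real.log (1 - θ))
    (by norm_num) hL
  obtain ⟨N₀, hN₀⟩ := eventually_atTop.1 (((e1.and e2).and (e3.and e4)).and
    (eventually_ge_atTop 1))
  refine ⟨N₀, fun N hN => ?_⟩
  obtain ⟨⟨⟨h1, h2⟩, h3, h4⟩, h5⟩ := hN₀ N hN
  have hN1 : (1 : ℝ) ≤ N := by exact_mod_cast h5
  have hN0 : (0 : ℝ) < N := by linarith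
  have h35 : (1 : ℝ) ≤ (N : ℝ) ^ (3 / 5 : ℝ) := Real.one_le_rpow hN1 (by norm_num)
  have h25 : (1 : ℝ) ≤ (N : ℝ) ^ (2 / 5 : ℝ) := Real.one_le_rpow hN1 (by norm_num)
  have h13 : (1 : ℝ) ≤ (N : ℝ) ^ (1 / 3 : ℝ) := Real.one_le_rpow hN1 (by norm_num)
  have hc0 : (0 : ℝ) ≤ c₀ := by positivity
  have hC1 : (0 : ℝ) ≤ C₁ := by positivity
  have hm : ((⌈(N : ℝ) ^ (3 / 5 : ℝ)⌉₊ + c₀ : ℕ) : ℝ) ≤ (2 + c₀) * (N : ℝ) ^ (3 / 5 : ℝ) := by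
    push_cast
    have h6 := (Nat.ceil_lt_add_one (show 0 ≤ (N : ℝ) ^ (3 / 5 : ℝ) by positivity)).le
    nlinarith
  have k3 : (N : ℝ) ^ (1 / 3 : ℝ) * (C₁ * ((⌈(N : ℝ) ^ (3 / 5 : ℝ)⌉₊ + c₀ : ℕ) : ℝ)) ≤ N / 3 := by
    have h6 : (N : ℝ) ^ (1 / 3 : ℝ) * (N : ℝ) ^ (3 / 5 : ℝ) = N * (N : ℝ) ^ (-(1 / 15) : ℝ) := by
      rw [← Real.rpow_add hN0]
      nth_rewrite 2 [← Real.rpow_one (N : ℝ)]
      rw [← Real.rpow_add hN0]
      norm_num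
    calc (N : ℝ) ^ (1 / 3 : ℝ) * (C₁ * ((⌈(N : ℝ) ^ (3 / 5 : ℝ)⌉₊ + c₀ : ℕ) : ℝ)) ≤
          (N : ℝ) ^ (1 / 3 : ℝ) * (C₁ * ((2 + c₀) * (N : ℝ) ^ (3 / 5 : ℝ))) := by gcongr
      _ = C₁ * (2 + c₀) * ((N : ℝ) ^ (1 / 3 : ℝ) * (N : ℝ) ^ (3 / 5 : ℝ)) := by ring
      _ = N * (C₁ * (2 + c₀) * (N : ℝ) ^ (-(1 / 15) : ℝ)) := by
          rw [h6]
          ring
      _ ≤ N * (1 / 3) := mul_le_mul_of_nonneg_left h1 hN0.le
      _ = N / 3 := by ring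
  refine ⟨?_, ?_, k3, ?_, ?_⟩
  · have h6 : (C₁ : ℝ) * ((⌈(N : ℝ) ^ (3 / 5 : ℝ)⌉₊ + c₀ : ℕ) : ℝ) ≤ N := by
      have h7 : 0 ≤ (C₁ : ℝ) * ((⌈(N : ℝ) ^ (3 / 5 : ℝ)⌉₊ + c₀ : ℕ) : ℝ) := by positivity
      have h8 := le_mul_of_one_le_left h7 h13
      linarith
    exact_mod_cast h6
  · refine le_trans ?_ h2
    have h6 : ((N : ℝ) ^ (1 / 5 : ℝ)) ^ (5 * K + 5) = (N : ℝ) ^ K * N := by
      rw [← Real.rpow_natCast, ← Real.rpow_mul hN0.le]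
      push_cast
      rw [show (1 / 5 : ℝ) * (5 * (K : ℝ) + 5) = K + 1 by ring, Real.rpow_add hN0, Real.rpow_one,
        Real.rpow_natCast]
    rw [h6]
    have h7 : (N : ℝ) ^ (1 / 3 : ℝ) ≤ N := by
      conv_rhs => rw [← Real.rpow_one (N : ℝ)]
      exact Real.rpow_le_rpow_of_exponent_le hN1 (by norm_num)
    have h8 : (3 * ((N : ℝ) + 1)) ^ K ≤ (6 * N) ^ K :=
      pow_le_pow_left₀ (by positivity) (by linarith) _
    calc (N : ℝ) ^ (1 / 3 : ℝ) * ((3 * ((N : ℝ) + 1)) ^ K *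
          Real.exp (-(c * (N : ℝ) ^ (1 / 5 : ℝ)))) ≤
          N * ((6 * N) ^ K * Real.exp (-(c * (N : ℝ) ^ (1 / 5 : ℝ)))) := by gcongr
      _ = _ := by
          rw [mul_pow]
          ring
  · have h6 : (N : ℝ) ^ (1 / 3 : ℝ) = (N : ℝ) ^ (2 / 5 : ℝ) * (N : ℝ) ^ (-(1 / 15) : ℝ) := by
      rw [← Real.rpow_add hN0]
      norm_num
    calc (N : ℝ) ^ (1 / 3 : ℝ) * C₃ = (N : ℝ) ^ (2 / 5 : ℝ) * (C₃ * (N : ℝ) ^ (-(1 / 15) : ℝ)) := by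
          rw [h6]
          ring
      _ ≤ (N : ℝ) ^ (2 / 5 : ℝ) * (1 / 3) := mul_le_mul_of_nonneg_left h3 (by positivity)
      _ ≤ (⌈(N : ℝ) ^ (2 / 5 : ℝ)⌉₊ : ℝ) * (1 / 3) :=
          mul_le_mul_of_nonneg_right (Nat.le_ceil _) (by norm_num)
      _ = _ := by ring
  · obtain ⟨E, hE⟩ : ∃ E, E = ⌈(N : ℝ) ^ (3 / 5 : ℝ)⌉₊ + c₀ + c₀ + ⌈(N : ℝ) ^ (2 / 5 : ℝ)⌉₊ :=
      ⟨_, rfl⟩
    rw [← hE]
    have hE2 : (E : ℝ) ≤ (4 + 2 * c₀) * (N : ℝ) ^ (3 / 5 : ℝ) := by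
      rw [hE]
      push_cast
      have h6 := (Nat.ceil_lt_add_one (show 0 ≤ (N : ℝ) ^ (3 / 5 : ℝ) by positivity)).le
      have h7 := (Nat.ceil_lt_add_one (show 0 ≤ (N : ℝ) ^ (2 / 5 : ℝ) by positivity)).le
      have h8 : (N : ℝ) ^ (2 / 5 : ℝ) ≤ (N : ℝ) ^ (3 / 5 : ℝ) :=
        Real.rpow_le_rpow_of_exponent_le hN1 (by norm_num)
      nlinarith
    have h6 : Real.log (3 * ((N : ℝ) + 1)) ≤ 10 * (N : ℝ) ^ (3 / 5 : ℝ) := by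
      have h7 : Real.log (3 * ((N : ℝ) + 1)) ≤ Real.log (6 * N) :=
        Real.log_le_log (by positivity) (by linarith)
      have h8 := Real.log_le_rpow_div (show 0 ≤ 6 * (N : ℝ) by positivity)
        (show (0 : ℝ) < 3 / 5 by norm_num)
      rw [Real.mul_rpow (by norm_num) hN0.le] at h8
      have h9 : (6 : ℝ) ^ (3 / 5 : ℝ) ≤ 6 := by
        conv_rhs => rw [← Real.rpow_one (6 : ℝ)]
        exact Real.rpow_le_rpow_of_exponent_le (by norm_num) (by norm_num)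
      have h10 : (6 : ℝ) ^ (3 / 5 : ℝ) * (N : ℝ) ^ (3 / 5 : ℝ) ≤ 6 * (N : ℝ) ^ (3 / 5 : ℝ) :=
        mul_le_mul_of_nonneg_right h9 (by positivity)
      rw [div_eq_mul_inv] at h8
      norm_num at h8
      linarith
    have h7 : (3 * ((N : ℝ) + 1)) ^ C = Real.exp (C * Real.log (3 * ((N : ℝ) + 1))) := by
      rw [Real.exp_nat_mul, Real.exp_log (by positivity)]
    have h8 : (k : ℝ) ^ E = Real.exp (E * Real.log k) := by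
      rw [Real.exp_nat_mul, Real.exp_log (by
        have : (2 : ℝ) ≤ k := by exact_mod_cast hk
        linarith)]
    have h9 : (1 - θ) ^ N = Real.exp (N * Real.log (1 - θ)) := by
      rw [Real.exp_nat_mul, Real.exp_log (by linarith)]
    rw [h7, h8, h9, ← Real.exp_add, ← Real.exp_add, Real.exp_le_one_iff]
    have h10 : (C : ℝ) * Real.log (3 * ((N : ℝ) + 1)) ≤ C * (10 * (N : ℝ) ^ (3 / 5 : ℝ)) :=
      mul_le_mul_of_nonneg_left h6 (by positivity)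
    have h11 : (E : ℝ) * Real.log k ≤ (4 + 2 * c₀) * (N : ℝ) ^ (3 / 5 : ℝ) * Real.log k :=
      mul_le_mul_of_nonneg_right hE2 hlk
    have h12 : (N : ℝ) ^ (3 / 5 : ℝ) = N * (N : ℝ) ^ (-(2 / 5) : ℝ) := by
      nth_rewrite 2 [← Real.rpow_one (N : ℝ)]
      rw [← Real.rpow_add hN0]
      norm_num
    have h13 : (C : ℝ) * (10 * (N : ℝ) ^ (3 / 5 : ℝ)) +
        (4 + 2 * c₀) * (N : ℝ) ^ (3 / 5 : ℝ) * Real.log k =
        N * ((10 * C + (4 + 2 * c₀) * Real.log k) * (N : ℝ) ^ (-(2 / 5) : ℝ)) := by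
      rw [h12]
      ring
    have h14 := mul_le_mul_of_nonneg_left h4 hN0.le
    linarith

end Pool.Agent.N438.LFEV
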