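import Pool.Agent.N979.CAP.Stm

/-! # Project CAP: Bessel inequality for almost orthogonal sequences -/

set_option autoImplicit false

namespace Pool.Agent.N438.CAPBES

open Real MeasureTheory Set Filter Topology Finset
open Pool.Agent.N979.CAP

theorem main : S_BES := by
  intro N w ε hw hε lam a f k D hlam hk hkD hΓ
  obtain ⟨n, hn⟩ : ∃ n : Fin 4 → ℝ, n = fun i => w * ∑ j ∈ range N, f i j * a j := ⟨_, rfl⟩
  obtain ⟨Γ, hΓ'⟩ : ∃ Γ : Fin 4 → Fin 4 → ℝ,
    Γ = fun i l => w * ∑ j ∈ range N, f i j * f l j / lam j := ⟨_, rfl⟩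
  have hni : ∀ i, w * ∑ j ∈ range N, f i j * a j = n i := fun i => by rw [hn]
  have hGi : ∀ i l, w * ∑ j ∈ range N, f i j * f l j / lam j = Γ i l := fun i l => by rw [hΓ']
  simp only [hni]
  simp only [hGi] at hΓ
  have h0 : 0 ≤ w * ∑ j ∈ range N, lam j * (a j - ∑ i, k i * n i * (f i j / lam j)) ^ 2 := by
    refine mul_nonneg hw (Finset.sum_nonneg fun j hj => ?_)
    have := hlam j hj
    positivity
  have h1 : w * ∑ j ∈ range N, lam j * (a j - ∑ i, k i * n i * (f i j / lam j)) ^ 2 =
      w * ∑ j ∈ range N, lam j * a j ^ 2 - 2 * ∑ i, k i * n i ^ 2 +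
        ∑ i, ∑ l, k i * n i * (k l * n l) * Γ i l := by
    have e1 : ∀ j ∈ range N, lam j * (a j - ∑ i, k i * n i * (f i j / lam j)) ^ 2 =
        lam j * a j ^ 2 - 2 * ∑ i, k i * n i * (f i j * a j) +
          ∑ i, ∑ l, k i * n i * (k l * n l) * (f i j * f l j / lam j) := by
      intro j hj
      have hl := (hlam j hj).ne'
      have e2 : ∑ i, k i * n i * (f i j / lam j) = (∑ i, k i * n i * f i j) / lam j := by
        rw [Finset.sum_div]
        exact Finset.sum_congr rfl fun i _ => by ring
      have e3 : ∑ i, k i * n i * (f i j * a j) = (∑ i, k i * n i * f i j) * a j := by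
        rw [Finset.sum_mul]
        exact Finset.sum_congr rfl fun i _ => by ring
      have e4 : ∑ i, ∑ l, k i * n i * (k l * n l) * (f i j * f l j / lam j) =
          (∑ i, k i * n i * f i j) ^ 2 / lam j := by
        rw [sq, Finset.sum_mul_sum, Finset.sum_div]
        refine Finset.sum_congr rfl fun i _ => ?_
        rw [Finset.sum_div]
        exact Finset.sum_congr rfl fun l _ => by ring
      rw [e2, e3, e4]
      field_simp
      ring
    rw [Finset.sum_congr rfl e1, Finset.sum_add_distrib, Finset.sum_sub_distrib, mul_add, mul_sub]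
    congr 1
    · congr 1
      rw [← Finset.mul_sum, Finset.sum_comm]
      have e5 : ∀ i, ∑ j ∈ range N, k i * n i * (f i j * a j) =
          k i * n i * ∑ j ∈ range N, f i j * a j := fun i => by rw [Finset.mul_sum]
      simp only [e5]
      rw [← mul_assoc, mul_comm w 2, mul_assoc, Finset.mul_sum]
      congr 1
      refine Finset.sum_congr rfl fun i _ => ?_
      calc w * (k i * n i * ∑ j ∈ range N, f i j * a j) =
          k i * n i * (w * ∑ j ∈ range N, f i j * a j) := by ring
        _ = _ := by rw [hni]; ring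
    · rw [Finset.sum_comm, Finset.mul_sum]
      refine Finset.sum_congr rfl fun i _ => ?_
      rw [Finset.sum_comm, Finset.mul_sum]
      refine Finset.sum_congr rfl fun l _ => ?_
      rw [← Finset.mul_sum, ← hGi i l]
      ring
  have h2 : ∑ i, ∑ l, k i * n i * (k l * n l) * Γ i l ≤ ∑ i, k i * n i ^ 2 +
      ε * (∑ i, k i * |n i|) ^ 2 := by
    have e1 : ∑ i, ∑ l, k i * n i * (k l * n l) * Γ i l =
        ∑ i, ∑ l, k i * n i * (k l * n l) * (Γ i l - (if i = l then D i else 0)) +
        ∑ i, k i * n i * (k i * n i) * D i := by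
      rw [← Finset.sum_add_distrib]
      refine Finset.sum_congr rfl fun i _ => ?_
      have e2 : k i * n i * (k i * n i) * D i =
          ∑ l, k i * n i * (k l * n l) * (if i = l then D i else 0) := by
        simp
      rw [e2, ← Finset.sum_add_distrib]
      exact Finset.sum_congr rfl fun l _ => by ring
    have e3 : ∑ i, k i * n i * (k i * n i) * D i ≤ ∑ i, k i * n i ^ 2 := by
      refine Finset.sum_le_sum fun i _ => ?_
      have h3 : 0 ≤ k i * n i ^ 2 := mul_nonneg (hk i) (sq_nonneg _)
      calc k i * n i * (k i * n i) * D i = (k i * n i ^ 2) * (k i * D i) := by ring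
        _ ≤ (k i * n i ^ 2) * 1 := mul_le_mul_of_nonneg_left (hkD i) h3
        _ = _ := mul_one _
    have e4 : ∑ i, ∑ l, k i * n i * (k l * n l) * (Γ i l - (if i = l then D i else 0)) ≤
        ε * (∑ i, k i * |n i|) ^ 2 := by
      rw [sq, Finset.sum_mul_sum, Finset.mul_sum]
      refine Finset.sum_le_sum fun i _ => ?_
      rw [Finset.mul_sum]
      refine Finset.sum_le_sum fun l _ => ?_
      refine (le_abs_self _).trans ?_
      rw [abs_mul, abs_mul, abs_mul, abs_mul, abs_of_nonneg (hk i), abs_of_nonneg (hk l),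
        mul_comm ε]
      refine mul_le_mul_of_nonneg_left (hΓ i l) ?_
      have := hk i
      have := hk l
      positivity
    rw [e1]
    linarith
  rw [h1] at h0
  linarith

end Pool.Agent.N438.CAPBES
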