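import Pool.Agent.N979.CAP.Stm

/-! # Project CAP: uniform convergence of Riemann sums of periodic functions -/

set_option autoImplicit false

namespace Pool.Agent.N438.CAPRIE

open Real MeasureTheory Set Filter Topology Finset
open Pool.Agent.N979.CAP

theorem main : S_RIE := by
  intro s₁ hs₁ f hf hper ε hε
  have hπ := Real.pi_pos
  have hP : ∀ s, Function.Periodic (fun ψ => f ψ s) π := fun s ψ => hper ψ s
  have hK : IsCompact (Set.Icc (-π) (2 * π) ×ˢ Set.Icc (0 : ℝ) s₁) := isCompact_Icc.prod isCompact_Icc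
  have hu := hK.uniformContinuousOn_of_continuous
    (hf.mono (Set.prod_mono (Set.subset_univ _) (le_refl _)))
  obtain ⟨δ, hδ, hu⟩ := Metric.uniformContinuousOn_iff.mp hu (ε / π) (by positivity)
  -- the modulus for all real numbers
  have hmod : ∀ s ∈ Set.Icc 0 s₁, ∀ ψ ψ' : ℝ, |ψ - ψ'| < min δ π → |f ψ s - f ψ' s| ≤ ε / π := by
    intro s hs ψ ψ' hψ
    obtain ⟨n, hn⟩ : ∃ n : ℤ, n = ⌊ψ / π⌋ := ⟨_, rfl⟩
    have h1 : (n : ℝ) ≤ ψ / π := by rw [hn]; exact Int.floor_le _
    have h2 : ψ / π < n + 1 := by rw [hn]; exact Int.lt_floor_add_one _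
    rw [le_div_iff₀ hπ] at h1
    rw [div_lt_iff₀ hπ] at h2
    have h3 := hψ.trans_le (min_le_right _ _)
    rw [abs_lt] at h3
    have e1 : f ψ s = f (ψ - n * π) s := ((hP s).sub_int_mul_eq n).symm
    have e2 : f ψ' s = f (ψ' - n * π) s := ((hP s).sub_int_mul_eq n).symm
    have h4 := hu (ψ - n * π, s) ⟨⟨by simp only; nlinarith, by simp only; nlinarith⟩, hs⟩
      (ψ' - n * π, s) ⟨⟨by simp only; nlinarith, by simp only; nlinarith⟩, hs⟩ (by
        rw [Prod.dist_eq]
        simp only [dist_self, Real.dist_eq, sub_sub_sub_cancel_right]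
        exact max_lt (hψ.trans_le (min_le_left _ _)) hδ)
    rw [e1, e2]
    rw [Real.dist_eq] at h4
    exact h4.le
  have hm0 : 0 < min δ π := lt_min hδ hπ
  obtain ⟨N₀, hN₀⟩ := exists_nat_gt (π / min δ π)
  have hN00 : (0 : ℝ) < N₀ := lt_trans (by positivity) hN₀
  refine ⟨N₀, ?_⟩
  intro N hN s hs φ
  have hNR : (N₀ : ℝ) ≤ N := by exact_mod_cast hN
  have hN0 : (0 : ℝ) < N := hN00.trans_le hNR
  have hstep : π / N < min δ π := by
    rw [div_lt_iff₀ hm0] at hN₀
    rw [div_lt_iff₀ hN0]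
    nlinarith
  have hcont : Continuous (fun ψ => f ψ s) := by
    rw [← continuousOn_univ]
    exact hf.comp (by fun_prop : ContinuousOn (fun ψ : ℝ => (ψ, s)) Set.univ)
      (fun ψ _ => ⟨Set.mem_univ _, hs⟩)
  have hint : ∀ a b : ℝ, IntervalIntegrable (fun ψ => f ψ s) volume a b :=
    fun a b => hcont.intervalIntegrable a b
  obtain ⟨a, ha⟩ : ∃ a : ℕ → ℝ, a = fun j : ℕ => π * j / N - φ := ⟨_, rfl⟩
  have ha0 : a 0 = 0 - φ := by rw [ha]; simp
  have haN : a N = (0 - φ) + π := by rw [ha]; field_simp; ring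
  have hastep : ∀ j, a (j + 1) = a j + π / N := by
    intro j; rw [ha]; push_cast; ring
  have h1 : ∫ ψ in (0 : ℝ)..π, f ψ s = ∑ j ∈ range N, ∫ ψ in a j..a (j + 1), f ψ s := by
    rw [intervalIntegral.sum_integral_adjacent_intervals (fun k _ => hint _ _), ha0, haN,
      (hP s).intervalIntegral_add_eq (0 - φ) 0, zero_add]
  rw [h1, Finset.mul_sum, ← Finset.sum_sub_distrib]
  refine (Finset.abs_sum_le_sum_abs _ _).trans ?_
  have h2 : ∀ j ∈ range N, |π / N * f (π * j / N - φ) s - ∫ ψ in a j..a (j + 1), f ψ s| ≤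
      ε / π * (π / N) := by
    intro j _
    have e1 : π * (j : ℝ) / N - φ = a j := by rw [ha]
    rw [e1]
    have e2 : π / N * f (a j) s = ∫ ψ in a j..a (j + 1), f (a j) s := by
      rw [intervalIntegral.integral_const, hastep, smul_eq_mul]; ring
    rw [e2, ← intervalIntegral.integral_sub (by simp) (hint _ _)]
    have h3 : ∀ ψ ∈ Set.uIoc (a j) (a (j + 1)), ‖f (a j) s - f ψ s‖ ≤ ε / π := by
      intro ψ hψ
      have hNp : 0 < π / N := by positivity
      rw [Set.uIoc_of_le (by rw [hastep]; linarith)] at hψ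
      rw [Real.norm_eq_abs]
      refine hmod s hs _ _ ?_
      rw [abs_lt]
      have := hψ.1
      have h5 := hψ.2
      rw [hastep] at h5
      constructor <;> linarith
    have h4 := intervalIntegral.norm_integral_le_of_norm_le_const h3
    rw [Real.norm_eq_abs, hastep, add_sub_cancel_left, abs_of_pos (by positivity : 0 < π / (N : ℝ))]
      at h4
    rw [hastep]
    exact h4
  refine (Finset.sum_le_sum h2).trans (le_of_eq ?_)
  rw [Finset.sum_const, Finset.card_range, nsmul_eq_mul]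
  field_simp

end Pool.Agent.N438.CAPRIE
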