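import Pool.Agent.N804.GM.StmG
import Pool.Agent.N799.LH.Back

/-!
# Project GM (helper804), GM9: few zeros to the right of the critical line imply small values
Author: helper438, with the library of helper799.
-/

set_option autoImplicit false

open Complex Metric Set Filter Topology

namespace Pool.Agent.N438.GM9

open Pool.Agent.N799.SP Pool.Agent.N799.LH Pool.Agent.N799.GL
open H855R2.SF Pool.Agent.W188.GLR

section abs

variable {α : Type*} {f : α → ℂ → ℂ} {ℓ : α → ℝ} {κ δ g : ℝ} {M : ℕ}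

theorem few_right (H : Fam f ℓ κ δ g M)
    (hlow : ∃ K : ℝ, ∀ a (s : ℂ), κ ≤ s.re → Real.exp (-K) ≤ ‖f a s‖) (ε : ℝ) (hε : 0 < ε) :
    ∃ η A L : ℝ, 0 < η ∧ ∀ a, L ≤ ℓ a →
      ZL (f a) {w | 1 / 2 + η ≤ w.re ∧ |w.im| ≤ A} (η * ℓ a) →
      ‖f a ⟨1 / 2, 0⟩‖ ≤ Real.exp (ε * ℓ a) := by
  have hκ := H.κ0
  have hδ0 := H.δ0
  have hδ1 := H.δ1
  have hg := H.g1
  obtain ⟨K2, hK2⟩ := hlow
  obtain ⟨K1, hK1⟩ := H.right
  set h : ℝ := min (ε / 2) δ with hh
  have hh0 : 0 < h := by positivity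
  have hh1 : h ≤ δ := min_le_right _ _
  have hh2 : h ≤ ε / 2 := min_le_left _ _
  obtain ⟨A2, L2, hconv⟩ := convex_step H (ε / 4) h 0 (by positivity) hh0 hh1
  set x0 : ℝ := κ + 1 with hx0
  obtain ⟨η3, L3, hη3, hL3, hfs⟩ := few_small (x0 - h / 2) (x0 - h) (1 / 2) (g + 1) (ε / 4)
    (by norm_num) (by linarith) (by linarith) (by linarith) (by positivity)
  obtain ⟨K3, hgrow⟩ := H.grow (|A2| + x0)
  refine ⟨min η3 (h / 2), |A2| + x0, max (max L2 L3) (max K3 (max (K1 / η3) (K2 / η3))),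
    by positivity, fun a ha hZ => ?_⟩
  have k2 : L2 ≤ ℓ a := ((le_max_left _ _).trans (le_max_left _ _)).trans ha
  have k3 : L3 ≤ ℓ a := ((le_max_right _ _).trans (le_max_left _ _)).trans ha
  have k4 : K3 ≤ ℓ a := ((le_max_left _ _).trans (le_max_right _ _)).trans ha
  have k5 : K1 ≤ η3 * ℓ a := by
    have := (((le_max_left _ _).trans (le_max_right _ _)).trans (le_max_right _ _)).trans ha
    rw [div_le_iff₀ hη3] at this
    linarith
  have k6 : K2 ≤ η3 * ℓ a := by
    have := (((le_max_right _ _).trans (le_max_right _ _)).trans (le_max_right _ _)).trans ha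
    rw [div_le_iff₀ hη3] at this
    linarith
  have hℓ := H.ℓ0 a
  have hline : ∀ w : ℂ, w.re = 1 / 2 + h → |w.im| ≤ A2 → ‖f a w‖ ≤ Real.exp (ε / 4 * ℓ a) := by
    intro w hw1 hw2
    set c : ℂ := ⟨1 / 2 + x0, w.im⟩ with hc
    have hcre : c.re = 1 / 2 + x0 := rfl
    have hcim : c.im = w.im := rfl
    have hball : ∀ (r : ℝ), ∀ z ∈ closedBall c r, 1 / 2 + x0 - r ≤ z.re ∧ |z.im| ≤ |A2| + r := by
      intro r z hz
      rw [mem_closedBall, dist_eq_norm] at hz
      have h1 := (Complex.abs_re_le_norm (z - c)).trans hz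
      have h2 := (Complex.abs_im_le_norm (z - c)).trans hz
      rw [sub_re, hcre] at h1
      rw [sub_im, hcim] at h2
      have h1' := abs_le.1 h1
      refine ⟨by linarith, ?_⟩
      calc |z.im| = |(z.im - w.im) + w.im| := by congr 1; ring
        _ ≤ |z.im - w.im| + |w.im| := abs_add_le _ _
        _ ≤ |A2| + r := by linarith [le_abs_self A2]
    refine hfs (ℓ a) k3 (f a) c (fun z _ => (H.fd a).analyticAt z) ?_ ?_ ?_ ?_ w ?_
    · intro z hz
      obtain ⟨h1, h2⟩ := hball _ z hz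
      refine (hgrow a z (by linarith) (by linarith)).trans (Real.exp_le_exp.2 ?_)
      linarith
    · intro z hz
      obtain ⟨h1, -⟩ := hball _ z hz
      have h3 : κ ≤ z.re := by linarith
      refine ⟨fun h0 => ?_, (hK1 a z h3).trans (Real.exp_le_exp.2 k5)⟩
      have h4 := hK2 a z h3
      rw [h0, norm_zero] at h4
      exact absurd h4 (not_le.2 (Real.exp_pos _))
    · refine le_trans (Real.exp_le_exp.2 (neg_le_neg k6)) (hK2 a c ?_)
      rw [hcre]
      linarith
    · refine hZ.mono ?_ (by gcongr; exact min_le_left _ _)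
      intro z hz
      obtain ⟨h1, h2⟩ := hball _ z hz
      have h3 : min η3 (h / 2) ≤ h / 2 := min_le_right _ _
      exact ⟨by linarith, by linarith⟩
    · rw [mem_closedBall, dist_eq_norm]
      have e : w - c = ((-(x0 - h) : ℝ) : ℂ) := by
        apply Complex.ext
        · rw [sub_re, hw1, hcre, ofReal_re]; ring
        · rw [sub_im, hcim, ofReal_im]; ring
      rw [e, Complex.norm_real, Real.norm_eq_abs, abs_neg, abs_of_nonneg (by linarith)]
  have hfin := hconv a k2 (ε / 4) (by positivity) hline ⟨1 / 2, 0⟩ (by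
    show 1 / 2 - h ≤ 1 / 2
    linarith) (by
    show 1 / 2 ≤ 1 / 2 + h
    linarith) (by simp)
  refine hfin.trans (Real.exp_le_exp.2 ?_)
  gcongr
  show ε / 4 + 1 / 2 * (1 / 2 + h - 1 / 2) + ε / 4 ≤ ε
  linarith

end abs

variable {m : ℕ} {ι : Type} {N : ι → ℕ} {mu : ι → Fin m → ℂ} {f : ι → ℂ → ℂ} {X : ι → ℝ → ℝ} {δ : ℝ}

theorem ZL_fa (i : ι) (t η A B : ℝ)
    (h : ZL (f i) {s | 1 / 2 + η ≤ s.re ∧ |s.im - t| ≤ A} B) :
    ZL (fa f (i, t)) {w | 1 / 2 + η ≤ w.re ∧ |w.im| ≤ A} B := by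
  refine ZL.comp (f := f i) (g := fa f (i, t)) (σ := fun w => w + t * I) ?_ ?_ ?_ ?_ h
  · intro x y hxy
    exact add_right_cancel hxy
  · intro z _ h0
    exact h0
  · intro z _ _
    have h1 := order_affine (f i) ((t : ℂ) * I) (R := 1) one_ne_zero z
    have e1 : (fun z => f i ((t : ℂ) * I + 1 * z)) = fa f (i, t) := by
      funext z
      unfold fa
      congr 1
      ring
    have e2 : (t : ℂ) * I + 1 * z = z + t * I := by ring
    rw [e1, e2] at h1
    exact h1
  · rintro z ⟨h1, h2⟩ _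
    refine ⟨?_, ?_⟩
    · simpa using h1
    · simpa using h2

/-- **GM9.** -/
theorem main : Pool.Agent.N804.GM.S_GR := by
  intro ι m N mu f X δ κ b H hκ hb hfar ε hε
  have hm : (1 : ℝ) ≤ m := by exact_mod_cast H.hm
  have hm0 : (0 : ℝ) < m := by linarith
  obtain ⟨η, A, L, hη, h⟩ := few_right (fam_of H hκ hb hfar) ⟨Real.log b, fun a s hs => by
    rw [Real.exp_neg, Real.exp_log hb, ← one_div]
    exact (hfar a.1 (s + a.2 * I) (by simpa using hs)).1⟩ (ε / (2 * m)) (by positivity)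
  refine ⟨η / (m + 2), A, Real.exp (max (Real.log 2) ((m + 2) * L)), by positivity, ?_⟩
  intro i t hX hZ
  have hXp : 0 < X i t := by linarith [H.X1 i t]
  have hlog : max (Real.log 2) ((m + 2) * L) ≤ Real.log (X i t) := by
    rwa [Real.le_log_iff_exp_le hXp]
  have h1 := la_ge H i t
  have h2 := la_le H i t ((le_max_left _ _).trans hlog)
  have hL : L ≤ la N mu (i, t) := by
    have h3 := ((le_max_right _ _).trans hlog).trans h1
    exact le_of_mul_le_mul_left h3 (by positivity)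
  have e3 : η / (m + 2) ≤ η := div_le_self hη.le (by linarith)
  have h4 := h (i, t) hL ((ZL_fa i t (η / (m + 2)) A _ hZ).mono (by
      rintro w ⟨k1, k2⟩
      exact ⟨by linarith, k2⟩) (by
      calc η / (m + 2) * Real.log (X i t) ≤ η / (m + 2) * ((m + 2) * la N mu (i, t)) := by gcongr
        _ = η * la N mu (i, t) := by field_simp))
  rw [fa_pt, add_zero] at h4
  rw [X_exp H]
  refine h4.trans (Real.exp_le_exp.2 ?_)
  calc ε / (2 * m) * la N mu (i, t) ≤ ε / (2 * m) * (2 * m * Real.log (X i t)) := by gcongr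
    _ = ε * Real.log (X i t) := by field_simp

end Pool.Agent.N438.GM9
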