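import Pool.Agent.N661.JM.Stm
import Pool.Agent.N661.BR.Every
import Pool.Agent.N878.BRBOCH
import Pool.Agent.N87.BRDOM
import Pool.Agent.N273.BRERG

/-!
# Project JM: linear combinations under an ergodic joint law
-/

set_option autoImplicit false
open MeasureTheory Filter Topology Complex ProbabilityTheory
open scoped ContDiff ENNReal

namespace Pool.Agent.N438.JMC

open Pool.Agent.W745.RW (lap dx dy)
open Pool.Agent.N661.BR (MW lin shift IsStationary IsErgodic Good meas_eval meas_shift J0 cov
  cov_zero parallel Four prod_int comp_spec)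
open Pool.Agent.N661.JM

noncomputable section

theorem meas_shiftI {d : ℕ} (x : ℂ) : Measurable (shiftI (d := d) x) :=
  measurable_pi_lambda _ fun i => (meas_shift x).comp (measurable_pi_apply i)

/-- derivative of a linear combination in the direction `v` -/
theorem fd_sum {d : ℕ} (α : Fin d → ℝ) (g : Fin d → ℂ → ℝ) (hg : ∀ i, Differentiable ℝ (g i))
    (v : ℂ) : (fun z => fderiv ℝ (fun w => ∑ i, α i * g i w) z v) =
      fun z => ∑ i, α i * fderiv ℝ (g i) z v := by
  funext z
  have h1 : HasFDerivAt (fun w => ∑ i, α i * g i w) (∑ i, α i • fderiv ℝ (g i) z) z :=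
    HasFDerivAt.fun_sum fun i _ => (hg i z).hasFDerivAt.const_mul (α i)
  rw [h1.fderiv, _root_.sum_apply]
  rfl

theorem fd_smooth {g : ℂ → ℝ} (hg : ContDiff ℝ ∞ g) (v : ℂ) :
    ContDiff ℝ ∞ (fun z => fderiv ℝ g z v) :=
  (hg.fderiv_right (m := ∞) (by simp)).clm_apply contDiff_const

theorem lap_sum {d : ℕ} (α : Fin d → ℝ) (g : Fin d → ℂ → ℝ) (hg : ∀ i, ContDiff ℝ ∞ (g i))
    (z : ℂ) : lap (fun w => ∑ i, α i * g i w) z = ∑ i, α i * lap (g i) z := by
  have hd : ∀ i, Differentiable ℝ (g i) := fun i => (hg i).differentiable (by simp)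
  have h1 : ∀ v : ℂ, fderiv ℝ (fun z => fderiv ℝ (fun w => ∑ i, α i * g i w) z v) z v =
      ∑ i, α i * fderiv ℝ (fun z => fderiv ℝ (g i) z v) z v := by
    intro v
    rw [fd_sum α g hd v]
    have h2 := congrFun (fd_sum α (fun i z => fderiv ℝ (g i) z v)
      (fun i => (fd_smooth (hg i) v).differentiable (by simp)) v) z
    exact h2
  show fderiv ℝ (fun z => fderiv ℝ (fun w => ∑ i, α i * g i w) z 1) z 1 +
    fderiv ℝ (fun z => fderiv ℝ (fun w => ∑ i, α i * g i w) z I) z I = _
  rw [h1, h1, ← Finset.sum_add_distrib]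
  refine Finset.sum_congr rfl fun i _ => ?_
  rw [← mul_add]
  rfl

/-- linear combinations -/
def comb {d : ℕ} (α : Fin d → ℝ) (f : Fin d → MW) : MW :=
  ⟨fun w => ∑ i, α i * f i w, ContDiff.sum fun i _ => contDiff_const.mul (f i).2.1, fun z => by
    rw [lap_sum α (fun i => f i) (fun i => (f i).2.1), ← Finset.sum_add_distrib]
    refine Finset.sum_eq_zero fun i _ => ?_
    rw [← mul_add, (f i).2.2 z, mul_zero]⟩

theorem comb_apply {d : ℕ} (α : Fin d → ℝ) (f : Fin d → MW) (w : ℂ) :
    comb α f w = ∑ i, α i * f i w := rfl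

theorem meas_comb {d : ℕ} (α : Fin d → ℝ) : Measurable (comb α) := by
  refine Measurable.subtype_mk (measurable_pi_lambda _ fun w => ?_)
  exact Finset.measurable_sum _ fun i _ =>
    ((meas_eval w).comp (measurable_pi_apply i)).const_mul (α i)

theorem COMB : S_COMB := by
  intro d μ hμ hs he hgood α
  have hc := meas_comb α
  have hev : ∀ i, Measurable (fun f : Fin d → MW => f i) := fun i => measurable_pi_apply i
  obtain ⟨ρ, hρ⟩ : ∃ ρ : Measure MW, ρ = μ.map (comb α) := ⟨_, rfl⟩
  have hρp : IsProbabilityMeasure ρ := by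
    rw [hρ]; exact Measure.isProbabilityMeasure_map hc.aemeasurable
  have hρs : IsStationary ρ := by
    intro x
    rw [hρ, Measure.map_map (meas_shift x) hc]
    have e : shift x ∘ comb α = comb α ∘ shiftI x := rfl
    rw [e, ← Measure.map_map hc (meas_shiftI x), hs x]
  have hρe : IsErgodic ρ := by
    intro A hA hinv
    have h1 : ∀ x : ℂ, shiftI x ⁻¹' (comb α ⁻¹' A) =ᵐ[μ] comb α ⁻¹' A := by
      intro x
      have hq : Measure.QuasiMeasurePreserving (comb α) μ ρ :=
        ⟨hc, by rw [hρ]⟩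
      exact hq.preimage_ae_eq (hinv x)
    have h3 := he _ (hc hA) h1
    rw [hρ, Measure.map_apply hc hA]
    exact h3
  -- moments of the marginals
  have hmp : ∀ i, IsProbabilityMeasure (marg μ i) := fun i =>
    Measure.isProbabilityMeasure_map (hev i).aemeasurable
  have h4 : ∀ i (w : ℂ), MemLp (fun f : Fin d → MW => f i w) 4 μ := by
    intro i w
    have h1 : Integrable (fun f : Fin d → MW => f i w ^ 4) μ :=
      (integrable_map_measure ((meas_eval w).pow_const 4).aestronglyMeasurable
        (hev i).aemeasurable).1 ((hgood i).fin w)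
    have hms : AEStronglyMeasurable (fun f : Fin d → MW => f i w) μ :=
      ((meas_eval w).comp (hev i)).aestronglyMeasurable
    rw [← integrable_norm_rpow_iff hms (by norm_num) (by norm_num)]
    refine h1.congr (Eventually.of_forall fun f => ?_)
    have e4 : (4 : ENNReal).toReal = ((4 : ℕ) : ℝ) := by norm_num
    show f i w ^ 4 = ‖f i w‖ ^ ((4 : ENNReal).toReal)
    rw [e4, Real.rpow_natCast, Real.norm_eq_abs, Even.pow_abs (by decide)]
  have h2 : ∀ i (w : ℂ), MemLp (fun f : Fin d → MW => f i w) 2 μ := fun i w =>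
    (h4 i w).mono_exponent (by norm_num)
  have hcomb4 : ∀ w : ℂ, MemLp (fun f : Fin d → MW => comb α f w) 4 μ := by
    intro w
    have := memLp_finsetSum Finset.univ (fun i _ => (h4 i w).const_mul (α i))
    exact this
  have hint4 : Integrable (fun f : Fin d → MW => comb α f 0 ^ 4) μ := by
    have h := (hcomb4 0).integrable_norm_pow (by norm_num)
    refine h.congr (Eventually.of_forall fun f => ?_)
    show ‖comb α f 0‖ ^ 4 = comb α f 0 ^ 4
    rw [Real.norm_eq_abs]
    exact Even.pow_abs (by decide) _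
  have hρ4 : Integrable (fun f : MW => f 0 ^ 4) ρ := by
    rw [hρ]
    exact (integrable_map_measure ((meas_eval 0).pow_const 4).aestronglyMeasurable
      hc.aemeasurable).2 hint4
  have hρ2 : Integrable (fun f : MW => f 0 ^ 2) ρ := by
    rw [hρ]
    refine (integrable_map_measure ((meas_eval 0).pow_const 2).aestronglyMeasurable
      hc.aemeasurable).2 ?_
    exact ((hcomb4 0).mono_exponent (by norm_num : (2 : ℝ≥0∞) ≤ 4)).integrable_sq
  -- domination
  have hdom : ∀ (k : ℕ) (c : Fin k → ℝ) (w : Fin k → ℂ),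
      ∫⁻ f : MW, ENNReal.ofReal ((∑ i, c i * f (w i)) ^ 2) ∂ρ ≤
        ENNReal.ofReal ((∑ i, α i ^ 2) * d * ∑ i, ∑ j, c i * c j * J0 ‖w i - w j‖) := by
    intro k c w
    have hmeas : Measurable (fun f : MW => (∑ i, c i * f (w i)) ^ 2) :=
      (Finset.measurable_sum _ fun i _ => (meas_eval (w i)).const_mul (c i)).pow_const 2
    rw [hρ, lintegral_map hmeas.ennreal_ofReal hc]
    have hL : ∀ i : Fin d, MemLp (fun f : Fin d → MW => ∑ j, c j * f i (w j)) 2 μ := by
      intro i
      exact memLp_finsetSum Finset.univ (fun j _ => (h2 i (w j)).const_mul (c j))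
    have e1 : ∀ f : Fin d → MW, ∑ j, c j * comb α f (w j) = ∑ i, α i * ∑ j, c j * f i (w j) := by
      intro f
      simp only [comb_apply, Finset.mul_sum]
      rw [Finset.sum_comm]
      exact Finset.sum_congr rfl fun i _ => Finset.sum_congr rfl fun j _ => by ring
    have hA : MemLp (fun f : Fin d → MW => ∑ i, α i * ∑ j, c j * f i (w j)) 2 μ :=
      memLp_finsetSum Finset.univ (fun i _ => (hL i).const_mul (α i))
    simp only [e1]
    rw [← ofReal_integral_eq_lintegral_ofReal hA.integrable_sq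
      (Eventually.of_forall fun f => by positivity)]
    apply ENNReal.ofReal_le_ofReal
    have e2 : ∀ i : Fin d, ∫ f : Fin d → MW, (∑ j, c j * f i (w j)) ^ 2 ∂μ =
        ∑ i, ∑ j, c i * c j * J0 ‖w i - w j‖ := by
      intro i
      have hi : ∀ w : ℂ, Integrable (fun f : MW => f w ^ 2) (marg μ i) := by
        intro w
        exact (integrable_map_measure ((meas_eval w).pow_const 2).aestronglyMeasurable
          (hev i).aemeasurable).2 (h2 i w).integrable_sq
      have e3 : ∫ f : Fin d → MW, (∑ j, c j * f i (w j)) ^ 2 ∂μ =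
          ∫ f : MW, (∑ j, c j * f (w j)) ^ 2 ∂(marg μ i) := by
        unfold marg
        rw [integral_map (hev i).aemeasurable hmeas.aestronglyMeasurable]
      rw [e3]
      have e4 : ∀ f : MW, (∑ i, c i * f (w i)) ^ 2 =
          ∑ i, ∑ j, c i * c j * (f (w i) * f (w j)) := by
        intro f
        rw [sq, Finset.sum_mul_sum]
        refine Finset.sum_congr rfl fun i _ => Finset.sum_congr rfl fun j _ => ?_
        ring
      simp only [e4]
      rw [integral_finsetSum _ fun i _ => integrable_finsetSum _ fun j _ =>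
        (prod_int hi (w i) (w j)).const_mul _]
      refine Finset.sum_congr rfl fun i _ => ?_
      rw [integral_finsetSum _ fun j _ => (prod_int hi (w i) (w j)).const_mul _]
      refine Finset.sum_congr rfl fun j _ => ?_
      rw [integral_const_mul, (hgood _).two]
    calc ∫ f : Fin d → MW, (∑ i, α i * ∑ j, c j * f i (w j)) ^ 2 ∂μ ≤
        ∫ f : Fin d → MW, (∑ i, α i ^ 2) * ∑ i, (∑ j, c j * f i (w j)) ^ 2 ∂μ := by
          refine integral_mono hA.integrable_sq
            ((integrable_finsetSum _ fun i _ => (hL i).integrable_sq).const_mul _) fun f => ?_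
          exact Finset.sum_mul_sq_le_sq_mul_sq _ _ _
      _ = (∑ i, α i ^ 2) * ∑ i : Fin d, ∫ f : Fin d → MW, (∑ j, c j * f i (w j)) ^ 2 ∂μ := by
          rw [integral_const_mul, integral_finsetSum _ fun i _ => (hL i).integrable_sq]
      _ = _ := by
          simp only [e2, Finset.sum_const, Finset.card_univ, Fintype.card_fin, nsmul_eq_mul]
          ring
  obtain ⟨m, ν, hν, hp, hm⟩ := comp_spec Pool.Agent.N878.BR.BOCH Pool.Agent.N87.BRDOM.DOM hρs hρ2
    (by positivity : (0 : ℝ) ≤ (∑ i, α i ^ 2) * d) hdom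
  obtain ⟨hF, h0⟩ := Pool.Agent.N273.BRERG.ERG ρ hρp hρs hρe hρ4 m ν hν hm hp
  have h3 := Pool.Agent.N878.BR.THREE ρ hρp hρs m ν hν hF hp 0 0 0
  have hfour := hF.four' 0 0 0 0
  simp only [sub_zero, cov_zero] at hfour
  have htwo := hm 0 0
  rw [sub_zero, cov_zero, mul_one] at htwo
  have tr : ∀ g : ℝ → ℝ, Measurable g → ∫ f : MW, g (f 0) ∂ρ = ∫ f, g (∑ i, α i * f i 0) ∂μ := by
    intro g hg
    rw [hρ]
    exact integral_map (f := fun f : MW => g (f 0)) hc.aemeasurable
      (hg.comp (meas_eval 0)).aestronglyMeasurable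
  refine ⟨hint4, ?_, ?_, ?_⟩
  · rw [← tr (fun x => x) measurable_id]
    exact h0 0
  · rw [← tr (fun x => x ^ 3) (by fun_prop)]
    refine (integral_congr_ae (Eventually.of_forall fun f => ?_)).trans h3
    show f 0 ^ 3 = f 0 * f 0 * f 0
    ring
  · rw [← tr (fun x => x ^ 4) (by fun_prop), ← tr (fun x => x ^ 2) (by fun_prop)]
    have e1 : ∫ f : MW, f 0 ^ 4 ∂ρ = ∫ f : MW, f 0 * f 0 * f 0 * f 0 ∂ρ := by
      refine integral_congr_ae (Eventually.of_forall fun f => ?_)
      show f 0 ^ 4 = f 0 * f 0 * f 0 * f 0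
      ring
    have e2 : ∫ f : MW, f 0 ^ 2 ∂ρ = ∫ f : MW, f 0 * f 0 ∂ρ := by
      refine integral_congr_ae (Eventually.of_forall fun f => ?_)
      show f 0 ^ 2 = f 0 * f 0
      ring
    rw [e1, e2, hfour, htwo]
    ring

end

end Pool.Agent.N438.JMC
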