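import Pool.Agent.N661.JM.Stm

/-!
# Project JM: marginals of joint local laws
-/

set_option autoImplicit false
open MeasureTheory Filter Topology Complex ProbabilityTheory
open scoped ContDiff

namespace Pool.Agent.N438.JM

open Pool.Agent.N661.BR (MW lin shift IsStationary IsErgodic Good meas_eval meas_shift)
open Pool.Agent.N661.BH (LocalLaws area frames loc)
open Pool.Agent.N661.JM

noncomputable section

theorem meas_shiftI {d : ℕ} (x : ℂ) : Measurable (shiftI (d := d) x) :=
  measurable_pi_lambda _ fun i => (meas_shift x).comp (measurable_pi_apply i)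

theorem meas_lin' {k : ℕ} (w : Fin k → ℂ) (t : Fin k → ℝ) : Measurable (lin w t) := by
  unfold lin
  exact Finset.measurable_sum _ fun j _ => (meas_eval (w j)).const_mul _

theorem MARG : S_MARG := by
  intro d μ hμ i
  have hm : Measurable (fun f : Fin d → MW => f i) := measurable_pi_apply i
  refine ⟨?_, ?_, ?_⟩
  · intro Ω lam u h k w t
    have h1 := h k w (Pi.single i t)
    have e1 : ∀ (n : ℕ) (z : ℂ) (v : Fin k → ℂ),
        ∑ i', ∑ j, (Pi.single i t : Fin d → Fin k → ℝ) i' j * loc (lam i' n) (u i' n) z (v j) =
          ∑ j, t j * loc (lam i n) (u i n) z (v j) := by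
      intro n z v
      rw [Finset.sum_eq_single i]
      · simp only [Pi.single_eq_same]
      · intro b _ hb
        simp only [Pi.single_eq_of_ne hb, Pi.zero_apply, zero_mul, Finset.sum_const_zero]
      · intro hb
        exact absurd (Finset.mem_univ i) hb
    have e2 : ∀ f : Fin d → MW, ∑ i', lin w ((Pi.single i t : Fin d → Fin k → ℝ) i') (f i') =
        lin w t (f i) := by
      intro f
      rw [Finset.sum_eq_single i]
      · simp only [Pi.single_eq_same]
      · intro b _ hb
        simp only [Pi.single_eq_of_ne hb, lin, Pi.zero_apply, zero_mul, Finset.sum_const_zero]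
      · intro hb
        exact absurd (Finset.mem_univ i) hb
    simp only [e1, e2] at h1
    have e3 : ∫ f, Complex.exp (I * (lin w t f : ℝ)) ∂(marg μ i) =
        ∫ f, Complex.exp (I * ((lin w t (f i) : ℝ) : ℂ)) ∂μ := by
      unfold marg
      rw [integral_map hm.aemeasurable]
      have := meas_lin' w t
      exact (by fun_prop : Measurable fun f : MW => Complex.exp (I * ((lin w t f : ℝ) : ℂ)))
        |>.aestronglyMeasurable
    rw [e3]
    exact h1
  · intro hs x
    unfold marg
    rw [Measure.map_map (meas_shift x) hm]
    have e : shift x ∘ (fun f : Fin d → MW => f i) = (fun f : Fin d → MW => f i) ∘ shiftI x := rfl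
    rw [e, ← Measure.map_map hm (meas_shiftI x), hs x]
  · intro he A hA hinv
    have h1 : ∀ x : ℂ, shiftI x ⁻¹' ((fun f : Fin d → MW => f i) ⁻¹' A) =ᵐ[μ]
        (fun f : Fin d → MW => f i) ⁻¹' A := by
      intro x
      have hq : Measure.QuasiMeasurePreserving (fun f : Fin d → MW => f i) μ (marg μ i) :=
        ⟨hm, Measure.AbsolutelyContinuous.rfl⟩
      exact hq.preimage_ae_eq (hinv x)
    have h3 := he _ (hm hA) h1
    unfold marg
    rw [Measure.map_apply hm hA]
    exact h3

end

end Pool.Agent.N438.JM
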