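import Pool.Agent.N347.LA.Defs
import Pool.Agent.H931R3.LACore

set_option autoImplicit false

/-!
# Project LA: bounded degree and reachability imply linear forest
-/

namespace Pool.Agent.N438.LAISLF_OF_REACH

open SimpleGraph

theorem isLF_of_reach {B : Type} [Finite B] (F : SimpleGraph B) (z : B → ℕ)
    (hd : ∀ b, (F.neighborSet b).ncard + z b ≤ 2)
    (hr : ∀ b, ∃ y, F.Reachable b y ∧ 0 < z y) : H931R3.LA.IsLF F := by
  classical
  refine ⟨?_, fun v => by have := hd v; omega⟩
  intro u c hc
  -- every vertex of the cycle has two neighbours on the cycle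
  have key : ∀ v ∈ c.support, z v = 0 ∧ ∀ w, F.Adj v w → w ∈ c.support := by
    intro v hv
    have h2 := hc.ncard_neighborSet_toSubgraph_eq_two hv
    have hsub : c.toSubgraph.neighborSet v ⊆ F.neighborSet v :=
      fun w hw => c.toSubgraph.adj_sub hw
    have hfin : (F.neighborSet v).Finite := Set.toFinite _
    have hle : (c.toSubgraph.neighborSet v).ncard ≤ (F.neighborSet v).ncard :=
      Set.ncard_le_ncard hsub hfin
    have h3 := hd v
    have heq : c.toSubgraph.neighborSet v = F.neighborSet v :=
      Set.eq_of_subset_of_ncard_le hsub (by omega) hfin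
    refine ⟨by omega, fun w hw => ?_⟩
    have hw' : w ∈ F.neighborSet v := hw
    rw [← heq] at hw'
    have h4 : c.toSubgraph.Adj v w := hw'
    exact (c.mem_verts_toSubgraph).1 h4.snd_mem
  obtain ⟨y, ⟨p⟩, hy⟩ := hr u
  have hall : ∀ {a b : B} (_ : F.Walk a b), a ∈ c.support → b ∈ c.support := by
    intro a b p
    induction p with
    | nil => exact id
    | cons h _ ih => exact fun ha => ih ((key _ ha).2 _ h)
  have := (key y (hall p c.start_mem_support)).1
  omega

end Pool.Agent.N438.LAISLF_OF_REACH
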