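import Pool.Agent.N906.RS.Stm

/-!
# The generating function from below
-/

set_option autoImplicit false
set_option linter.unusedSectionVars false

namespace Pool.Agent.N438.RS

open NumberField IsDedekindDomain Finset Filter Topology Pool.Agent.H691R3 Pool.Agent.W223.AK
open Pool.Agent.N906.RS

variable {K : Type} [Field K] [NumberField K]

/-- the exponent, in the slot `l`, of the choice `o` -/
def vl {J : ℕ} (o : Option (Fin 3 × Fin J)) (l : Fin 3) : ℕ :=
  match o with
  | none => 0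
  | some q => if q.1 = l then (q.2 : ℕ) + 1 else 0

theorem vl_inj {J : ℕ} {o o' : Option (Fin 3 × Fin J)} (h : ∀ l, vl o l = vl o' l) : o = o' := by
  rcases o with _ | ⟨l, j⟩ <;> rcases o' with _ | ⟨l', j'⟩
  · rfl
  · have h1 := h l'
    simp [vl] at h1
  · have h1 := h l
    simp [vl] at h1
  · have h1 := h l
    by_cases h2 : l' = l
    · subst h2
      simp only [vl, if_true] at h1
      have h3 : j = j' := Fin.ext (by omega)
      rw [h3]
    · simp [vl, h2] at h1

theorem vl_cop {J : ℕ} (o : Option (Fin 3 × Fin J)) {l l' : Fin 3} (h : l ≠ l') :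
    vl o l = 0 ∨ vl o l' = 0 := by
  rcases o with _ | ⟨m, j⟩
  · exact Or.inl rfl
  · by_cases h1 : m = l
    · right
      have h2 : m ≠ l' := fun h3 => h (h1.symm.trans h3)
      simp [vl, h2]
    · left
      simp [vl, h1]

open Classical in
/-- the triple of ideals given by a choice -/
noncomputable def tri (s : Finset (Pr K)) {J : ℕ} (p : s → Option (Fin 3 × Fin J)) (l : Fin 3) :
    Idl K :=
  Finsupp.onFinset s (fun v => if h : v ∈ s then vl (p ⟨v, h⟩) l else 0) fun v hv => by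
    by_contra h
    exact hv (dif_neg h)

theorem tri_apply (s : Finset (Pr K)) {J : ℕ} (p : s → Option (Fin 3 × Fin J)) (l : Fin 3)
    (v : s) : tri s p l v = vl (p v) l := by
  unfold tri
  rw [Finsupp.onFinset_apply, dif_pos v.2]

theorem tri_zero (s : Finset (Pr K)) {J : ℕ} (p : s → Option (Fin 3 × Fin J)) (l : Fin 3)
    {v : Pr K} (hv : v ∉ s) : tri s p l v = 0 := by
  unfold tri
  rw [Finsupp.onFinset_apply, dif_neg hv]

theorem tri_inj (s : Finset (Pr K)) {J : ℕ} :
    Function.Injective fun p : s → Option (Fin 3 × Fin J) => tri s p := by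
  intro p p' h
  funext v
  refine vl_inj fun l => ?_
  have h1 := congrArg (fun E : Fin 3 → Idl K => E l v) h
  beta_reduce at h1
  rwa [tri_apply, tri_apply] at h1

theorem tri_sup (s : Finset (Pr K)) {J : ℕ} (p : s → Option (Fin 3 × Fin J)) (l : Fin 3) :
    (tri s p l).support ⊆ s := Finsupp.support_onFinset_subset

theorem len_eq (a : Idl K) {s : Finset (Pr K)} (h : a.support ⊆ s) :
    len a = ∑ v : s, (a v : ℝ) * Real.log (Nv (v : Pr K)) := by
  unfold len
  rw [Finset.sum_coe_sort s fun v => (a v : ℝ) * Real.log (Nv v)]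
  refine Finset.sum_subset h fun v _ hv => ?_
  rw [Finsupp.notMem_support_iff.1 hv, Nat.cast_zero, zero_mul]

theorem rl_eq (a : Idl K) {s : Finset (Pr K)} (h : a.support ⊆ s) :
    rl a = ∑ v : s, (if a v = 0 then 0 else 1) * Real.log (Nv (v : Pr K)) := by
  unfold rl
  rw [Finset.sum_coe_sort s fun v => (if a v = 0 then 0 else 1) * Real.log (Nv v)]
  rw [← Finset.sum_subset h fun v _ hv => ?_]
  · refine Finset.sum_congr rfl fun v hv => ?_
    rw [if_neg (Finsupp.mem_support_iff.1 hv), one_mul]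
  · rw [if_pos (Finsupp.notMem_support_iff.1 hv), zero_mul]

/-- the weight of a choice at a prime -/
noncomputable def wt (u : ℝ) {J : ℕ} (v : Pr K) (o : Option (Fin 3 × Fin J)) : ℝ :=
  match o with
  | none => 1
  | some q => (Nv v)⁻¹ * ((Nv v) ^ (-u)) ^ ((q.2 : ℕ) + 1)

theorem Nv_pos (v : Pr K) : 0 < Nv v := by linarith [two_le_Nv v]

theorem wt_eq (u : ℝ) {J : ℕ} (v : Pr K) (o : Option (Fin 3 × Fin J)) :
    Real.exp (-(u * ∑ l, (vl o l : ℝ) * Real.log (Nv v)) -
      ∑ l, (if vl o l = 0 then 0 else 1) * Real.log (Nv v)) = wt u v o := by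
  rcases o with _ | ⟨m, j⟩
  · simp [vl, wt]
  · have h1 : ∑ l, (vl (some (m, j)) l : ℝ) * Real.log (Nv v) = ((j : ℝ) + 1) * Real.log (Nv v) := by
      rw [Finset.sum_eq_single m]
      · simp [vl]
      · intro l _ hl
        simp [vl, hl.symm]
      · intro h
        exact absurd (Finset.mem_univ _) h
    have h2 : ∑ l, (if vl (some (m, j)) l = 0 then 0 else 1) * Real.log (Nv v) =
        Real.log (Nv v) := by
      rw [Finset.sum_eq_single m]
      · simp [vl]
      · intro l _ hl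
        simp [vl, hl.symm]
      · intro h
        exact absurd (Finset.mem_univ _) h
    rw [h1, h2]
    unfold wt
    have h3 : (Nv v)⁻¹ = Real.exp (-Real.log (Nv v)) := by
      rw [Real.exp_neg, Real.exp_log (Nv_pos v)]
    have h4 : ((Nv v) ^ (-u)) ^ ((j : ℕ) + 1) =
        Real.exp (((j : ℝ) + 1) * (Real.log (Nv v) * -u)) := by
      rw [Real.rpow_def_of_pos (Nv_pos v), ← Real.exp_nat_mul]
      push_cast
      rfl
    change _ = (Nv v)⁻¹ * ((Nv v) ^ (-u)) ^ ((j : ℕ) + 1)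
    rw [h3, h4, ← Real.exp_add]
    congr 1
    ring

theorem exp_tri (u : ℝ) (s : Finset (Pr K)) {J : ℕ} (p : s → Option (Fin 3 × Fin J)) :
    Real.exp (-(u * tl (tri s p)) - tr (tri s p)) = ∏ v : s, wt u (v : Pr K) (p v) := by
  have h1 : tl (tri s p) = ∑ v : s, ∑ l, (vl (p v) l : ℝ) * Real.log (Nv (v : Pr K)) := by
    unfold tl
    rw [Finset.sum_comm]
    refine Finset.sum_congr rfl fun l _ => ?_
    rw [len_eq _ (tri_sup s p l)]
    refine Finset.sum_congr rfl fun v _ => ?_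
    rw [tri_apply]
  have h2 : tr (tri s p) =
      ∑ v : s, ∑ l, (if vl (p v) l = 0 then 0 else 1) * Real.log (Nv (v : Pr K)) := by
    unfold tr
    rw [Finset.sum_comm]
    refine Finset.sum_congr rfl fun l _ => ?_
    rw [rl_eq _ (tri_sup s p l)]
    refine Finset.sum_congr rfl fun v _ => ?_
    rw [tri_apply]
  have h3 : -(u * tl (tri s p)) - tr (tri s p) = ∑ v : s,
      (-(u * ∑ l, (vl (p v) l : ℝ) * Real.log (Nv (v : Pr K))) -
        ∑ l, (if vl (p v) l = 0 then 0 else 1) * Real.log (Nv (v : Pr K))) := by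
    rw [Finset.sum_sub_distrib, Finset.sum_neg_distrib, ← Finset.mul_sum, h1, h2]
  rw [h3, Real.exp_sum]
  refine Finset.prod_congr rfl fun v _ => ?_
  rw [wt_eq]

theorem sum_wt (u : ℝ) (J : ℕ) (v : Pr K) : ∑ o : Option (Fin 3 × Fin J), wt u v o =
    1 + 3 * ((Nv v)⁻¹ * ∑ j ∈ Finset.range J, ((Nv v) ^ (-u)) ^ (j + 1)) := by
  have h1 : ∀ q : Fin 3 × Fin J, wt u v (some q) = (Nv v)⁻¹ * ((Nv v) ^ (-u)) ^ ((q.2 : ℕ) + 1) :=
    fun q => rfl
  have h2 : wt u v (none : Option (Fin 3 × Fin J)) = 1 := rfl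
  have h3 : ∑ j : Fin J, (Nv v)⁻¹ * ((Nv v) ^ (-u)) ^ ((j : ℕ) + 1) =
      (Nv v)⁻¹ * ∑ j ∈ Finset.range J, ((Nv v) ^ (-u)) ^ (j + 1) := by
    rw [Finset.mul_sum, Finset.sum_range]
  rw [Fintype.sum_option, h2]
  simp only [h1]
  rw [Fintype.sum_prod_type, Fin.sum_univ_three]
  simp only
  rw [h3]
  ring

/-- The generating function from below. -/
theorem glow (K : Type) [Field K] [NumberField K] (h : S_ELOW K) : S_GLOW K := by
  classical
  intro ε hε hε3
  obtain ⟨u₀, hu₀, hu₀2, h1⟩ := h ε hε (by linarith)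
  refine ⟨u₀, hu₀, hu₀2, fun u hu huu => ?_⟩
  obtain ⟨s, hs1, hs2⟩ := h1 u hu huu
  have hlog : 0 < Real.log (1 / u) := Real.log_pos (by
    rw [lt_div_iff₀ hu]
    linarith)
  have hG : 0 < 3 / (u * Real.log (1 / u)) := by positivity
  -- the limit
  have hlim : ∀ v : Pr K, Tendsto (fun J : ℕ => 1 + 3 * ((Nv v)⁻¹ *
      ∑ j ∈ Finset.range J, ((Nv v) ^ (-u)) ^ (j + 1))) atTop
      (𝓝 (1 + 3 / (Nv v * ((Nv v) ^ u - 1)))) := by
    intro v
    have hN : 1 < Nv v := by linarith [two_le_Nv v]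
    have hN0 : 0 < Nv v := Nv_pos v
    have hq0 : 0 ≤ (Nv v) ^ (-u) := Real.rpow_nonneg hN0.le _
    have hq1 : (Nv v) ^ (-u) < 1 := Real.rpow_lt_one_of_one_lt_of_neg hN (by linarith)
    have hs := (hasSum_geometric_of_lt_one hq0 hq1).mul_left ((Nv v) ^ (-u))
    have ht := hs.tendsto_sum_nat
    have h4 : ∀ J : ℕ, ∑ j ∈ Finset.range J, (Nv v) ^ (-u) * ((Nv v) ^ (-u)) ^ j =
        ∑ j ∈ Finset.range J, ((Nv v) ^ (-u)) ^ (j + 1) := fun J =>
      Finset.sum_congr rfl fun j _ => (pow_succ' _ _).symm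
    have h5 := ((ht.const_mul ((Nv v)⁻¹)).const_mul 3).const_add 1
    refine (Filter.Tendsto.congr (fun J => ?_) h5).trans_eq ?_
    · rw [h4]
    · congr 2
      have h6 : (Nv v) ^ (-u) = ((Nv v) ^ u)⁻¹ := Real.rpow_neg hN0.le u
      have h7 : 1 < (Nv v) ^ u := Real.one_lt_rpow hN hu
      rw [h6]
      have h8 : (Nv v) ^ u ≠ 0 := by positivity
      have h9 : (Nv v) ^ u - 1 ≠ 0 := by linarith
      have h10 : 1 - ((Nv v) ^ u)⁻¹ ≠ 0 := by
        have h11 : ((Nv v) ^ u)⁻¹ < 1 := inv_lt_one_of_one_lt₀ h7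
        linarith
      field_simp
  have hlim2 := tendsto_finsetProd s fun v _ => hlim v
  have hpos : ∀ v : Pr K, 0 < 1 + 3 / (Nv v * ((Nv v) ^ u - 1)) := by
    intro v
    have hN : 1 < Nv v := by linarith [two_le_Nv v]
    have h7 : 1 < (Nv v) ^ u := Real.one_lt_rpow hN hu
    have h8 : 0 < Nv v * ((Nv v) ^ u - 1) := mul_pos (by linarith) (by linarith)
    positivity
  have hbig : Real.exp ((1 - 3 * ε) * 3 / (u * Real.log (1 / u))) <
      ∏ v ∈ s, (1 + 3 / (Nv v * ((Nv v) ^ u - 1))) := by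
    have h2 : ∏ v ∈ s, (1 + 3 / (Nv v * ((Nv v) ^ u - 1))) =
        Real.exp (∑ v ∈ s, Real.log (1 + 3 / (Nv v * ((Nv v) ^ u - 1)))) := by
      rw [Real.exp_sum]
      exact Finset.prod_congr rfl fun v _ => (Real.exp_log (hpos v)).symm
    rw [h2]
    refine Real.exp_lt_exp.2 (lt_of_lt_of_le ?_ hs2)
    rw [mul_div_assoc, mul_div_assoc]
    exact mul_lt_mul_of_pos_right (by linarith) hG
  obtain ⟨J, hJ⟩ := (hlim2.eventually (lt_mem_nhds hbig)).exists
  refine ⟨Finset.univ.image fun p : s → Option (Fin 3 × Fin J) => tri s p, ?_, ?_⟩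
  · intro E hE
    obtain ⟨p, -, rfl⟩ := Finset.mem_image.1 hE
    refine ⟨fun l l' hl v => ?_, fun l v hv => hs1 v (tri_sup s p l hv)⟩
    by_cases hv : v ∈ s
    · have h2 := tri_apply s p l ⟨v, hv⟩
      have h3 := tri_apply s p l' ⟨v, hv⟩
      rw [show tri s p l v = vl (p ⟨v, hv⟩) l from h2,
        show tri s p l' v = vl (p ⟨v, hv⟩) l' from h3]
      exact vl_cop _ hl
    · exact Or.inl (tri_zero s p l hv)
  · rw [Finset.sum_image fun p _ p' _ hpp => tri_inj s hpp]
    refine hJ.le.trans (le_of_eq ?_)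
    rw [Finset.sum_congr rfl fun p _ => exp_tri u s p, ← Fintype.prod_sum,
      ← Finset.prod_coe_sort]
    exact Finset.prod_congr rfl fun v _ => (sum_wt u J (v : Pr K)).symm

end Pool.Agent.N438.RS
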